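import Pool.Agent.Y879.GL.Prog2
import Pool.Agent.Y879.AP.Mean2

set_option autoImplicit false

/-!
# The sieve density of the pairs `m`, `n - m`
-/

namespace Pool.Agent.Q236.GW

open Finset Filter
open Pool.Agent.W123.RP Pool.Agent.H373R2.T7 Pool.Agent.W123.RU Pool.Agent.TH464.PO Pool.Agent.TH464.PW
open Pool.Agent.Y879.AP Pool.Agent.Y879.GL

lemma card_le_of {s : Finset ℕ} {P P' : ℕ → Prop} (i1 : DecidablePred P) (i2 : DecidablePred P')
    (h : ∀ r ∈ s, P r → P' r) : (@Finset.filter _ P i1 s).card ≤ (@Finset.filter _ P' i2 s).card := by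
  apply Finset.card_le_card
  intro r hr
  rw [Finset.mem_filter] at hr ⊢
  exact ⟨hr.1, h r hr.1 hr.2⟩

/-- the factors -/
noncomputable def bb (p : ℕ) : ℝ := if p ≤ 2 then 1 else 1 - 1 / ((p : ℝ) - 1) ^ 2

lemma bb_bounds (p : ℕ) : 0 ≤ bb p ∧ bb p ≤ 1 := by
  unfold bb
  split_ifs with h
  · exact ⟨zero_le_one, le_rfl⟩
  · have h2 : (2 : ℝ) ≤ (p : ℝ) - 1 := by
      have : (3 : ℝ) ≤ p := by exact_mod_cast (by omega : 3 ≤ p)
      linarith
    have h3 : 1 / ((p : ℝ) - 1) ^ 2 ≤ 1 := by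
      rw [div_le_one (by positivity)]
      nlinarith
    have h4 : 0 ≤ 1 / ((p : ℝ) - 1) ^ 2 := by positivity
    exact ⟨by linarith, by linarith⟩

lemma prod_all (y : ℕ) (hy : 2 ≤ y) : ∏ m ∈ Icc 1 y, bb m = y / (2 * ((y : ℝ) - 1)) := by
  induction y, hy using Nat.le_induction with
  | base =>
    have : Icc 1 2 = ({1, 2} : Finset ℕ) := by decide
    rw [this, prod_insert (by decide), prod_singleton]
    unfold bb
    norm_num
  | succ y hy ih =>
    have e : Icc 1 (y + 1) = insert (y + 1) (Icc 1 y) := by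
      ext i
      simp only [mem_Icc, mem_insert]
      omega
    rw [e, prod_insert (by simp), ih]
    unfold bb
    rw [if_neg (by omega)]
    have h2 : (2 : ℝ) ≤ y := by exact_mod_cast hy
    have h3 : (y : ℝ) - 1 ≠ 0 := by linarith
    have h4 : (y : ℝ) ≠ 0 := by linarith
    push_cast
    rw [add_sub_cancel_right]
    field_simp
    ring

lemma prod_bb (y : ℕ) : 1 / 2 ≤ ∏ p ∈ pz y, bb p := by
  have h1 : ∏ m ∈ Icc 1 y, bb m ≤ ∏ p ∈ pz y, bb p := by
    unfold pz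
    rw [prod_filter]
    apply Finset.prod_le_prod
    · intro i _
      exact (bb_bounds i).1
    · intro i _
      split_ifs
      · exact le_rfl
      · exact (bb_bounds i).2
  refine le_trans ?_ h1
  rcases Nat.lt_or_ge y 2 with hy | hy
  · have : ∏ m ∈ Icc 1 y, bb m = 1 := by
      apply prod_eq_one
      intro i hi
      rw [mem_Icc] at hi
      unfold bb
      rw [if_pos (by omega)]
    rw [this]
    norm_num
  · rw [prod_all y hy]
    have h2 : (2 : ℝ) ≤ y := by exact_mod_cast hy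
    rw [div_le_div_iff₀ (by norm_num) (by linarith)]
    linarith

/-- the density for the pairs `m`, `n - m` -/
noncomputable def VG (n y : ℕ) : ℝ := Vq (Qn (Q2 (-1) (n : ℤ)) 1) y

lemma VG_eq (n y : ℕ) : VG n y = ∏ p ∈ pz y, (1 - (if p ∣ n then (1 : ℝ) else 2) / p) := by
  unfold VG Vq
  apply prod_congr rfl
  intro p hp
  have hpp := (mem_pz.1 hp).2
  rw [nuB_Qn_not _ _ _ (fun h => hpp.one_lt.ne' (Nat.dvd_one.1 h)),
    nuB_Q2 (-1) n (by norm_num) p hpp]
  unfold nu2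
  by_cases h : p ∣ n
  · rw [if_pos (Int.natCast_dvd_natCast.2 h), if_pos h]
    norm_num
  · rw [if_neg (fun h2 => h (Int.natCast_dvd_natCast.1 h2)), if_neg h]
    norm_num

lemma fac (n p : ℕ) (hn : Even n) (hp : p.Prime) :
    0 ≤ 1 - (if p ∣ n then (1 : ℝ) else 2) / p ∧
    (1 - (if p ∣ n then (1 : ℝ) else 2) / p) * (if p ∣ n then 1 - 1 / (p : ℝ) else 1) ≤
      (1 - 1 / (p : ℝ)) * (1 - 1 / (p : ℝ)) ∧
    (1 - 1 / (p : ℝ)) * (1 - 1 / (p : ℝ)) * bb p ≤
      (1 - (if p ∣ n then (1 : ℝ) else 2) / p) * (if p ∣ n then 1 - 1 / (p : ℝ) else 1) := by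
  have hp2 : (2 : ℝ) ≤ p := by exact_mod_cast hp.two_le
  have hp0 : (0 : ℝ) < p := by linarith
  have h1 : 0 ≤ 1 - 1 / (p : ℝ) := by
    rw [sub_nonneg, div_le_one hp0]
    linarith
  by_cases h : p ∣ n
  · rw [if_pos h, if_pos h]
    refine ⟨h1, le_rfl, ?_⟩
    have := (bb_bounds p).2
    have h2 : 0 ≤ (1 - 1 / (p : ℝ)) * (1 - 1 / (p : ℝ)) := by positivity
    nlinarith
  · rw [if_neg h, if_neg h, mul_one]
    have hp3 : 3 ≤ p := by
      have h3 := hp.two_le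
      rcases Nat.lt_or_ge p 3 with h4 | h4
      · exfalso
        have h5 : p = 2 := by omega
        rw [h5] at h
        exact h hn.two_dvd
      · exact h4
    have hp3' : (3 : ℝ) ≤ p := by exact_mod_cast hp3
    refine ⟨?_, ?_, ?_⟩
    · rw [sub_nonneg, div_le_one hp0]
      linarith
    · have : 0 ≤ 1 / (p : ℝ) * (1 / (p : ℝ)) := by positivity
      have e : (2 : ℝ) / p = 1 / p + 1 / p := by ring
      rw [e]
      nlinarith
    · unfold bb
      rw [if_neg (by omega)]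
      have h3 : (p : ℝ) - 1 ≠ 0 := by linarith
      apply le_of_eq
      field_simp
      ring

lemma VG_Vd (n y : ℕ) (hn : Even n) :
    VG n y * Vq (Qd Ql n) y ≤ Vz y ^ 2 ∧ Vz y ^ 2 * (1 / 2) ≤ VG n y * Vq (Qd Ql n) y := by
  have e1 : Vq (Qd Ql n) y = ∏ p ∈ pz y, (if p ∣ n then 1 - 1 / (p : ℝ) else 1) := by
    rw [Vd_eq, prod_filter]
  have e2 : VG n y * Vq (Qd Ql n) y =
      ∏ p ∈ pz y, ((1 - (if p ∣ n then (1 : ℝ) else 2) / p) * (if p ∣ n then 1 - 1 / (p : ℝ) else 1)) := by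
    rw [VG_eq, e1, prod_mul_distrib]
  have e3 : Vz y ^ 2 = ∏ p ∈ pz y, ((1 - 1 / (p : ℝ)) * (1 - 1 / (p : ℝ))) := by
    rw [pow_two]
    unfold Vz
    rw [prod_mul_distrib]
  have hnn : ∀ p ∈ pz y, 0 ≤ (1 - (if p ∣ n then (1 : ℝ) else 2) / p) *
      (if p ∣ n then 1 - 1 / (p : ℝ) else 1) := by
    intro p hp
    have hpp := (mem_pz.1 hp).2
    apply mul_nonneg (fac n p hn hpp).1
    split_ifs
    · have hp2 : (1 : ℝ) ≤ p := by exact_mod_cast hpp.one_lt.le
      rw [sub_nonneg, div_le_one (by linarith)]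
      exact hp2
    · exact zero_le_one
  constructor
  · rw [e2, e3]
    exact Finset.prod_le_prod hnn (fun p hp => (fac n p hn (mem_pz.1 hp).2).2.1)
  · have h1 := prod_bb y
    have h2 : 0 ≤ Vz y ^ 2 := sq_nonneg _
    refine (mul_le_mul_of_nonneg_left h1 h2).trans ?_
    rw [e2, e3, ← prod_mul_distrib]
    apply Finset.prod_le_prod
    · intro p hp
      exact mul_nonneg (mul_self_nonneg _) (bb_bounds p).1
    · intro p hp
      exact (fac n p hn (mem_pz.1 hp).2).2.2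

/-- the expected density of the Goldbach primes of `n` -/
noncomputable def DG (n : ℕ) : ℝ := n / (n.totient * Real.log n ^ 2)

theorem VG_order (r : ℕ) (hr : 2 ≤ r) : ∃ c₁ c₂ : ℝ, 0 < c₁ ∧ 0 < c₂ ∧ ∀ᶠ n : ℕ in atTop, Even n →
    c₁ * DG n ≤ VG n ⌊(n : ℝ) ^ (1 / (r : ℝ))⌋₊ ∧ VG n ⌊(n : ℝ) ^ (1 / (r : ℝ))⌋₊ ≤ c₂ * DG n := by
  obtain ⟨κ, hκ⟩ : ∃ κ : ℝ, κ = r * Real.exp (-Real.eulerMascheroniConstant) := ⟨_, rfl⟩
  have hr0 : (0 : ℝ) < r := by exact_mod_cast (by omega : 0 < r)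
  have hκ0 : 0 < κ := by rw [hκ]; positivity
  have hz := Vz_asym r hr
  rw [← hκ] at hz
  refine ⟨κ ^ 2 / 16, 4 * κ ^ 2, by positivity, by positivity, ?_⟩
  filter_upwards [hz.eventually (lt_mem_nhds (show κ / 2 < κ by linarith)),
    hz.eventually (gt_mem_nhds (show κ < 2 * κ by linarith)), large_part r hr (1 / 2) (by norm_num),
    eventually_ge_atTop 3] with n h1 h2 h3 hn3 hn
  obtain ⟨y, hy⟩ : ∃ y, y = ⌊(n : ℝ) ^ (1 / (r : ℝ))⌋₊ := ⟨_, rfl⟩
  rw [← hy] at h1 h2 h3 ⊢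
  have hphi := phi_eq n y (by omega)
  obtain ⟨P, hP⟩ : ∃ P : ℝ, P = ∏ p ∈ n.primeFactors.filter (fun p => y < p), (1 - 1 / (p : ℝ)) := ⟨_, rfl⟩
  rw [← hP] at h3 hphi
  obtain ⟨hV1, hV2⟩ := VG_Vd n y hn
  obtain ⟨d, hd⟩ : ∃ d, d = Vq (Qd Ql n) y := ⟨_, rfl⟩
  rw [← hd] at hphi hV1 hV2
  have hn0 : (0 : ℝ) < n := by exact_mod_cast (by omega : 0 < n)
  have hphi0 : (0 : ℝ) < n.totient := by exact_mod_cast Nat.totient_pos.2 (by omega)
  have hL : 0 < Real.log n := Real.log_pos (by exact_mod_cast (by omega : 1 < n))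
  have hPP : 0 < P := by linarith [h3.1]
  have hd0 : 0 < d := by
    have h4 : 0 < d * P := by rw [← hphi]; positivity
    exact pos_of_mul_pos_left h4 hPP.le
  have hDG : DG n * (d * P) * Real.log n ^ 2 = 1 := by
    unfold DG
    rw [← hphi]
    field_simp
  have hDG0 : 0 < DG n := by unfold DG; positivity
  have hz0 : 0 < Vz y * Real.log n := by linarith
  have hsq1 : (κ / 2) ^ 2 ≤ (Vz y * Real.log n) ^ 2 := pow_le_pow_left₀ (by positivity) h1.le 2
  have hsq2 : (Vz y * Real.log n) ^ 2 ≤ (2 * κ) ^ 2 := pow_le_pow_left₀ hz0.le h2.le 2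
  have hV0 : 0 ≤ VG n y := by
    by_contra hcon
    rw [not_le] at hcon
    have : VG n y * d < 0 := mul_neg_of_neg_of_pos hcon hd0
    have h5 : 0 ≤ Vz y ^ 2 * (1 / 2) := by positivity
    linarith
  -- multiply everything by `d log² n`
  have hdl : 0 < d * Real.log n ^ 2 := by positivity
  constructor
  · have h6 : κ ^ 2 / 16 * DG n * (d * Real.log n ^ 2) ≤ VG n y * (d * Real.log n ^ 2) := by
      have h7 : DG n * (d * Real.log n ^ 2) ≤ 2 := by
        have h8 : DG n * (d * Real.log n ^ 2) * P = 1 := by rw [← hDG]; ring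
        have h9 : 0 ≤ DG n * (d * Real.log n ^ 2) := by positivity
        nlinarith [h3.1]
      have h10 : κ ^ 2 / 16 * DG n * (d * Real.log n ^ 2) ≤ κ ^ 2 / 8 := by
        have h11 : 0 ≤ κ ^ 2 / 16 := by positivity
        nlinarith
      have h12 : κ ^ 2 / 8 ≤ (Vz y ^ 2 * (1 / 2)) * Real.log n ^ 2 := by
        rw [mul_pow] at hsq1
        nlinarith
      have h13 : (Vz y ^ 2 * (1 / 2)) * Real.log n ^ 2 ≤ VG n y * d * Real.log n ^ 2 :=
        mul_le_mul_of_nonneg_right hV2 (by positivity)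
      linarith
    exact le_of_mul_le_mul_right h6 hdl
  · have h6 : VG n y * (d * Real.log n ^ 2) ≤ 4 * κ ^ 2 * DG n * (d * Real.log n ^ 2) := by
      have h7 : 1 ≤ DG n * (d * Real.log n ^ 2) := by
        have h8 : DG n * (d * Real.log n ^ 2) * P = 1 := by rw [← hDG]; ring
        have h9 : 0 ≤ DG n * (d * Real.log n ^ 2) := by positivity
        nlinarith [h3.2]
      have h10 : 4 * κ ^ 2 ≤ 4 * κ ^ 2 * DG n * (d * Real.log n ^ 2) := by
        have h11 : 0 ≤ 4 * κ ^ 2 := by positivity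
        nlinarith
      have h13 : VG n y * d * Real.log n ^ 2 ≤ Vz y ^ 2 * Real.log n ^ 2 :=
        mul_le_mul_of_nonneg_right hV1 (by positivity)
      rw [mul_pow, mul_pow] at hsq2
      linarith
    exact le_of_mul_le_mul_right h6 hdl

end Pool.Agent.Q236.GW
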