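import Pool.Agent.Q236.GW.Reg

set_option autoImplicit false

/-!
# The pairs `m`, `d m + a`, uniformly in `a` and `d`
-/

namespace Pool.Agent.Q236.GW

open Polynomial Finset Filter
open Pool.Agent.W123.RP Pool.Agent.H373R2.T7 Pool.Agent.W123.RU Pool.Agent.W123.RU.Poly
open Pool.Agent.TH464.PW Pool.Agent.TH464.PO Pool.Agent.Y879.AP Pool.Agent.Y879.GL

/-- the leading coefficients -/
def la (d : ℕ) : Fin 2 → ℤ := ![1, (d : ℤ)]

/-- the constant terms -/
def lb (a : ℤ) : Fin 2 → ℤ := ![0, a]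

/-- the two forms -/
noncomputable def fl (a : ℤ) (d : ℕ) : Fin 2 → ℤ[X] := fun i => lf (la d i) (lb a i)

lemma fl_Q (a : ℤ) (d p m : ℕ) (hp : p.Prime) : Q (fl a d) p m ↔ (p : ℤ) ∣ (m : ℤ) * (a + m * d) := by
  have hpi : Prime (p : ℤ) := Nat.prime_iff_prime_int.1 hp
  unfold Q fl
  rw [Fin.exists_fin_two, hpi.dvd_mul]
  simp only [lf_eval, la, lb, Matrix.cons_val_zero, Matrix.cons_val_one]
  have e1 : (1 : ℤ) * (m : ℤ) + 0 = m := by ring
  have e2 : (d : ℤ) * (m : ℤ) + a = a + m * d := by ring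
  rw [e1, e2]

lemma nu_fl (a : ℤ) (d p : ℕ) (hp : p.Prime) (had : IsCoprime a (d : ℤ)) :
    nuB (Q (fl a d)) p = if p ∣ a.natAbs * d then 1 else 2 := by
  classical
  have : Fact p.Prime := ⟨hp⟩
  have hpi : Prime (p : ℤ) := Nat.prime_iff_prime_int.1 hp
  have h0 : nuB (Q (fl a d)) p =
      ((range p).filter (fun r : ℕ => (p : ℤ) ∣ (r : ℤ) * (a + r * d))).card := by
    unfold nuB
    exact card_iff _ _ (fun r _ => fl_Q a d p r hp)
  rw [h0]
  have hdvd : p ∣ a.natAbs * d ↔ (p : ℤ) ∣ a ∨ (p : ℤ) ∣ (d : ℤ) := by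
    rw [hp.dvd_mul, Int.natCast_dvd, Int.natCast_dvd_natCast]
  have hz : ∀ r : ℕ, r < p → ((p : ℤ) ∣ (r : ℤ) ↔ r = 0) := by
    intro r hr
    rw [Int.natCast_dvd_natCast]
    constructor
    · intro h
      by_contra hne
      have := Nat.le_of_dvd (by omega) h
      omega
    · rintro rfl
      exact dvd_zero _
  by_cases h : p ∣ a.natAbs * d
  · rw [if_pos h]
    have hset : (range p).filter (fun r : ℕ => (p : ℤ) ∣ (r : ℤ) * (a + r * d)) = {0} := by
      ext r
      rw [Finset.mem_filter, Finset.mem_range, Finset.mem_singleton]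
      constructor
      · rintro ⟨h1, h2⟩
        rcases hpi.dvd_or_dvd h2 with h3 | h3
        · exact (hz r h1).1 h3
        · rcases hdvd.1 h with h4 | h4
          · have h5 : (p : ℤ) ∣ (r : ℤ) * d := by
              have := dvd_sub h3 h4
              simpa using this
            rcases hpi.dvd_or_dvd h5 with h6 | h6
            · exact (hz r h1).1 h6
            · exfalso
              exact hpi.not_isUnit (had.isUnit_of_dvd' h4 h6)
          · have h5 : (p : ℤ) ∣ a := by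
              have := dvd_sub h3 (Dvd.dvd.mul_left h4 (r : ℤ))
              simpa using this
            exfalso
            exact hpi.not_isUnit (had.isUnit_of_dvd' h5 h4)
      · rintro rfl
        exact ⟨hp.pos, by simp⟩
    rw [hset, card_singleton]
  · rw [if_neg h]
    have h' : ¬ (p : ℤ) ∣ a ∧ ¬ (p : ℤ) ∣ (d : ℤ) := by
      rw [hdvd, not_or] at h
      exact h
    have hd0 : ((d : ℕ) : ZMod p) ≠ 0 := by
      intro h1
      apply h'.2
      rw [Int.natCast_dvd_natCast]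
      exact (ZMod.natCast_eq_zero_iff d p).1 h1
    have ha0 : ((a : ℤ) : ZMod p) ≠ 0 := by
      intro h1
      exact h'.1 ((ZMod.intCast_zmod_eq_zero_iff_dvd a p).1 h1)
    obtain ⟨r1, hr1⟩ : ∃ r1 : ℕ, r1 = (-(a : ZMod p) * ((d : ℕ) : ZMod p)⁻¹).val := ⟨_, rfl⟩
    have hr1p : r1 < p := by rw [hr1]; exact ZMod.val_lt _
    have hcast : ((r1 : ℕ) : ZMod p) = -(a : ZMod p) * ((d : ℕ) : ZMod p)⁻¹ := by
      rw [hr1, ZMod.natCast_zmod_val]
    have hiff : ∀ r : ℕ, r < p → ((p : ℤ) ∣ a + r * d ↔ r = r1) := by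
      intro r hr
      rw [← ZMod.intCast_zmod_eq_zero_iff_dvd]
      push_cast
      constructor
      · intro h1
        have h2 : ((r : ℕ) : ZMod p) = ((r1 : ℕ) : ZMod p) := by
          rw [hcast]
          field_simp
          linear_combination h1
        have h3 := (ZMod.natCast_eq_natCast_iff r r1 p).1 h2
        have h4 : r % p = r1 % p := h3
        rwa [Nat.mod_eq_of_lt hr, Nat.mod_eq_of_lt hr1p] at h4
      · rintro rfl
        rw [hcast]
        field_simp
        ring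
    have hr10 : r1 ≠ 0 := by
      intro h1
      rw [h1] at hcast
      push_cast at hcast
      have h2 : -(a : ZMod p) * ((d : ℕ) : ZMod p)⁻¹ = 0 := hcast.symm
      rcases mul_eq_zero.1 h2 with h3 | h3
      · exact ha0 (neg_eq_zero.1 h3)
      · exact hd0 (inv_eq_zero.1 h3)
    have hset : (range p).filter (fun r : ℕ => (p : ℤ) ∣ (r : ℤ) * (a + r * d)) = {0, r1} := by
      ext r
      rw [Finset.mem_filter, Finset.mem_range, Finset.mem_insert, Finset.mem_singleton]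
      constructor
      · rintro ⟨h1, h2⟩
        rcases hpi.dvd_or_dvd h2 with h3 | h3
        · exact Or.inl ((hz r h1).1 h3)
        · exact Or.inr ((hiff r h1).1 h3)
      · rintro (rfl | h1)
        · exact ⟨hp.pos, by simp⟩
        · rw [h1]
          exact ⟨hr1p, Dvd.dvd.mul_left ((hiff r1 hr1p).2 rfl) _⟩
    rw [hset, card_insert_of_notMem (by simpa using hr10.symm), card_singleton]

lemma V_fl (a : ℤ) (d y : ℕ) (had : IsCoprime a (d : ℤ)) :
    Vq (Q (fl a d)) y = VG (a.natAbs * d) y := by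
  rw [VG_eq]
  unfold Vq
  apply prod_congr rfl
  intro p hp
  rw [nu_fl a d p (mem_pz.1 hp).2 had]
  split_ifs
  · norm_num
  · norm_num

lemma fl_adm (a : ℤ) (d : ℕ) (had : IsCoprime a (d : ℤ)) (hev : Even (a * d)) (p : ℕ) (hp : p.Prime) :
    ∃ m : ℕ, ∀ i, ¬ (p : ℤ) ∣ la d i * m + lb a i := by
  classical
  have h1 : nuB (Q (fl a d)) p < p := by
    rw [nu_fl a d p hp had]
    split_ifs with h
    · exact hp.one_lt
    · have h2 := hp.two_le
      rcases Nat.lt_or_ge 2 p with h3 | h3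
      · exact h3
      · exfalso
        have h4 : p = 2 := by omega
        apply h
        rw [h4]
        have h5 : (2 : ℤ) ∣ a * d := hev.two_dvd
        have h6 : (2 : ℕ) ∣ (a * d).natAbs := by
          have := Int.natAbs_dvd_natAbs.2 h5
          simpa using this
        rwa [Int.natAbs_mul, Int.natAbs_natCast] at h6
  obtain ⟨m, _, hm⟩ := nu_exists (Q (fl a d)) p h1
  refine ⟨m, fun i hi => hm ⟨i, ?_⟩⟩
  unfold fl
  rw [lf_eval]
  exact hi

lemma fl_us (a : ℤ) (d : ℕ) (hd : 1 ≤ d) (had : IsCoprime a (d : ℤ)) (hev : Even (a * d))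
    (H : ℝ) (h1H : 1 ≤ H) (haH : |(a : ℝ)| ≤ H) (hdH : (d : ℝ) ≤ H) : US 2 1 H 0 (fl a d) := by
  apply us_lf 2 (la d) (lb a) H 0
  · intro i
    fin_cases i
    · simp [la]
    · simp [la]
      omega
  · intro i
    fin_cases i
    · simp only [la, lb]
      exact isCoprime_one_left
    · simp only [la, lb]
      exact had.symm
  · intro i
    fin_cases i
    · simp [la]
      exact h1H
    · simp [la]
      exact hdH
  · intro i
    fin_cases i
    · simp [lb]
      linarith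
    · simp [lb]
      exact haH
  · exact fl_adm a d had hev
  · intro i j t ht htU
    exfalso
    have : (1 : ℝ) ≤ t := by exact_mod_cast ht
    linarith

lemma fl_noas (a : ℤ) (d : ℕ) (hd : 1 ≤ d) (U : ℝ) : NoAs (fl a d) {a.natAbs} U := by
  intro i j t ht _ htE h
  rw [Finset.mem_singleton] at htE
  unfold fl at h
  have hd' : (1 : ℤ) ≤ d := by exact_mod_cast hd
  have ht' : (1 : ℤ) ≤ t := by exact_mod_cast ht
  have key : ∀ x : ℤ, |x| = t → x.natAbs = t := by
    intro x hx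
    rw [Int.abs_eq_natAbs] at hx
    exact_mod_cast hx
  rcases lf_assoc _ _ _ _ _ h with ⟨h1, h2⟩ | ⟨h1, h2⟩
  · fin_cases i <;> fin_cases j <;> simp [la, lb] at h1 h2
    · omega
    · -- `1 = d`, `0 = a + d t`
      apply htE
      rw [← h1] at h2
      symm
      apply key
      have : a = -t := by linarith
      rw [this, abs_neg]
      exact abs_of_nonneg (by linarith)
    · apply htE
      symm
      apply key
      rw [h2]
      exact abs_of_nonneg (by linarith)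
    · omega
  · fin_cases i <;> fin_cases j <;> simp [la, lb] at h1 h2
    all_goals omega

/-- **Regular points for the pairs `m`, `a + m d`, uniformly in `a` and `d`.** -/
theorem her_fl (A θ : ℝ) (hA : 0 < A) (hθ : 0 < θ) :
    ∃ r0 : ℕ, 2 ≤ r0 ∧ ∀ r : ℕ, r0 ≤ r → ∀ ε : ℝ, 0 < ε → ∃ c : ℝ, 0 < c ∧
      ∀ δ : ℝ, 0 < δ → ∃ B : ℕ, ∀ᶠ X : ℕ in atTop, ∀ (a : ℤ) (d : ℕ), 1 ≤ d → a ≠ 0 →
      IsCoprime a (d : ℤ) → Even (a * d) → |(a : ℝ)| ≤ (X : ℝ) ^ A → (d : ℝ) ≤ (X : ℝ) ^ A →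
      ∀ u Y : ℕ, (X : ℝ) ^ θ ≤ Y → Y ≤ X → Y ≤ u →
      ∀ S : Set ℕ, (∀ m ∈ S, Sf (Q (fl a d)) ⌊(X : ℝ) ^ (1 / (r : ℝ))⌋₊ m) →
        (cnt (Irregular S c (SG (a.natAbs * d) / Real.log X ^ 2) δ B Y) u (u + Y) : ℝ) ≤
          ε * (Y * (SG (a.natAbs * d) / Real.log X ^ 2)) := by
  obtain ⟨r0, hr0, h⟩ := hered_polys 2 1 1 (A + 1) 1 θ (by linarith) one_pos hθ
  refine ⟨r0, hr0, ?_⟩
  intro r hr ε hε
  have hr2 : 2 ≤ r := hr0.trans hr
  obtain ⟨M, hM, hVup⟩ := V2_up (2 * A) (by positivity) r hr2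
  obtain ⟨c₁, c₂, hc₁, hc₂, hord⟩ := VG_orderU (2 * A) r hr2
  obtain ⟨c₀, hc₀, h2⟩ := h r hr M hM (ε / c₂) (by positivity)
  obtain ⟨c, hc, htr⟩ := transfer c₀ c₁ c₂ hc₀ hc₁ hc₂
  refine ⟨c, hc, ?_⟩
  intro δ hδ
  obtain ⟨B, h3⟩ := h2 (δ / c₂) (by positivity)
  refine ⟨B, ?_⟩
  filter_upwards [h3, hVup, hord, eventually_ge_atTop 3] with X hX hVX hoX hX3
  intro a d hd ha0 had hev haX hdX u Y hXY hYX hYu S hS
  have hX2r : (3 : ℝ) ≤ X := by exact_mod_cast hX3
  have hX0 : (0 : ℝ) < X := by linarith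
  have hX1 : (1 : ℝ) ≤ X := by linarith
  have hE : (X : ℝ) ^ (A + 1) = (X : ℝ) ^ A * X := by rw [Real.rpow_add hX0, Real.rpow_one]
  have hA0 : 0 < (X : ℝ) ^ A := Real.rpow_pos_of_pos hX0 _
  have hA1 : 1 ≤ (X : ℝ) ^ A := Real.one_le_rpow hX1 hA.le
  obtain ⟨D, hD⟩ : ∃ D : ℕ, D = a.natAbs * d := ⟨_, rfl⟩
  have hDev : Even D := by
    rw [hD]
    have h5 : (a * d).natAbs = a.natAbs * d := by rw [Int.natAbs_mul, Int.natAbs_natCast]
    rw [← h5]
    exact Int.natAbs_even.2 hev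
  have hD1 : 1 ≤ D := by
    rw [hD]
    exact Nat.mul_pos (Int.natAbs_pos.2 ha0) hd
  have hDX : (D : ℝ) ≤ (X : ℝ) ^ (2 * A) := by
    have hfabs : ((a.natAbs : ℕ) : ℝ) = |(a : ℝ)| := by
      rw [Nat.cast_natAbs]
      push_cast
      rfl
    rw [hD]
    push_cast [hfabs]
    calc |(a : ℝ)| * (d : ℝ) ≤ (X : ℝ) ^ A * (X : ℝ) ^ A := by gcongr
      _ = (X : ℝ) ^ (2 * A) := by
        rw [← Real.rpow_add hX0]
        congr 1
        ring
  rw [← hD]
  obtain ⟨V, hV⟩ : ∃ V, V = VG D ⌊(X : ℝ) ^ (1 / (r : ℝ))⌋₊ := ⟨_, rfl⟩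
  have hVf : Vq (Q (fl a d)) ⌊(X : ℝ) ^ (1 / (r : ℝ))⌋₊ = V := by rw [hV, hD]; exact V_fl a d _ had
  obtain ⟨ho1, ho2⟩ := hoX D hDev hD1 hDX
  rw [← hV] at ho1 ho2
  have hL : 0 < Real.log X := Real.log_pos (by linarith)
  have hdens : 0 < SG D / Real.log X ^ 2 := div_pos (SG_pos D) (by positivity)
  have hmain := hX (fl a d) (fl_us a d hd had hev _ (by nlinarith) (by nlinarith) (by nlinarith))
    {a.natAbs} (by simp) (fl_noas a d hd _) (by
      apply hVX (Q (fl a d)) D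
      · intro p hp
        rw [nu_fl a d p hp had]
        split_ifs with h6
        · exact hp.one_lt
        · have h7 := hp.two_le
          rcases Nat.lt_or_ge 2 p with h8 | h8
          · exact h8
          · exfalso
            have h9 : p = 2 := by omega
            apply h6
            rw [← hD, h9]
            exact hDev.two_dvd
      · exact hD1
      · exact hDX
      · intro p hp hpD
        rw [nu_fl a d p hp had, ← hD, if_neg hpD]) u Y hXY hYX hYu S hS
  rw [hVf] at hmain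
  have ht := htr S V (SG D / Real.log X ^ 2) δ hdens ho1 ho2 hδ B Y u (u + Y)
  have ht' : (cnt (Irregular S c (SG D / Real.log X ^ 2) δ B Y) u (u + Y) : ℝ) ≤
      (Pool.Agent.TH977.PW.N (Irr S (1 / V) c₀ (δ / c₂) B Y) u (u + Y) : ℝ) := by exact_mod_cast ht
  refine ht'.trans (hmain.trans ?_)
  calc ε / c₂ * (Y * V) ≤ ε / c₂ * (Y * (c₂ * (SG D / Real.log X ^ 2))) := by
        apply mul_le_mul_of_nonneg_left _ (by positivity)
        exact mul_le_mul_of_nonneg_left ho2 (Nat.cast_nonneg Y)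
    _ = ε * (Y * (SG D / Real.log X ^ 2)) := by
        field_simp

end Pool.Agent.Q236.GW
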