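import Pool.Agent.Q236.GW.Reg

set_option autoImplicit false

/-!
# Systems of polynomials and of linear forms: regular points for the density `∏ (1 - ν(p) / p)`, `p ≤ X`
-/

namespace Pool.Agent.Q236.GW

open Polynomial Finset Filter
open Pool.Agent.W123.RP Pool.Agent.H373R2.T7 Pool.Agent.W123.RU Pool.Agent.W123.RU.Poly
open Pool.Agent.TH464.PW Pool.Agent.TH464.PO Pool.Agent.Y879.AP Pool.Agent.Y879.GL

/-- the density at the level `X ^ (1 / r)` and at the level `X` -/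
lemma Vq_level (c r : ℕ) (hr : 2 ≤ r) : ∃ C : ℝ, 0 < C ∧ ∀ᶠ X : ℕ in atTop,
    ∀ Q : ℕ → ℕ → Prop, PerB Q c → (∀ p : ℕ, p.Prime → nuB Q p < p) →
      Vq Q X ≤ Vq Q ⌊(X : ℝ) ^ (1 / (r : ℝ))⌋₊ ∧
      Vq Q ⌊(X : ℝ) ^ (1 / (r : ℝ))⌋₊ ≤ C * Vq Q X := by
  obtain ⟨C, hC, h⟩ := Vq_ratio c
  have hrr : (2 : ℝ) ≤ r := by exact_mod_cast hr
  have hrpos : (0 : ℝ) < r := by linarith
  have hpowr : Tendsto (fun q : ℕ => (q : ℝ) ^ (1 / (r : ℝ))) atTop atTop :=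
    (tendsto_rpow_atTop (by positivity)).comp tendsto_natCast_atTop_atTop
  have hfl : Tendsto (fun q : ℕ => ⌊(q : ℝ) ^ (1 / (r : ℝ))⌋₊) atTop atTop :=
    tendsto_nat_floor_atTop.comp hpowr
  refine ⟨C * (2 * r) ^ (2 * c), by positivity, ?_⟩
  filter_upwards [level_ok r hr, hfl.eventually_ge_atTop (2 * c + 2), eventually_ge_atTop 1] with X hX hX2 hX3
  obtain ⟨g1, g2, g3, g4, g5⟩ := hX
  obtain ⟨y, hy⟩ : ∃ y, y = ⌊(X : ℝ) ^ (1 / (r : ℝ))⌋₊ := ⟨_, rfl⟩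
  rw [← hy] at g1 g2 g3 g4 hX2 ⊢
  intro Q hQ hadm
  have hX1 : (1 : ℝ) ≤ X := by exact_mod_cast hX3
  have hyX : y ≤ X := by
    have h1 : (y : ℝ) ≤ X := by
      calc (y : ℝ) ≤ (X : ℝ) ^ (1 / (r : ℝ)) := by
            rw [hy]
            exact Nat.floor_le (by positivity)
        _ ≤ (X : ℝ) ^ (1 : ℝ) := Real.rpow_le_rpow_of_exponent_le hX1 (by
            rw [div_le_one hrpos]
            linarith)
        _ = X := Real.rpow_one _
    exact_mod_cast h1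
  have hVX : 0 < Vq Q X := Vq_pos Q hadm X
  constructor
  · unfold Vq
    have hsub : pz y ⊆ pz X := by
      intro p hp
      rw [mem_pz] at hp ⊢
      exact ⟨hp.1.trans hyX, hp.2⟩
    rw [← Finset.prod_sdiff hsub]
    apply mul_le_of_le_one_left
    · exact (Vq_pos Q hadm y).le
    · apply Finset.prod_le_one
      · intro p hp
        exact one_sub_nonneg _ p (mem_pz.1 (Finset.mem_sdiff.1 hp).1).2
      · intro p _
        have : (0 : ℝ) ≤ (nuB Q p : ℝ) / p := by positivity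
        linarith
  · refine (h Q hQ hadm y X hX2 hyX).trans ?_
    apply mul_le_mul_of_nonneg_right _ hVX.le
    apply mul_le_mul_of_nonneg_left _ hC.le
    have hly : 0 < Real.log y := by linarith
    apply pow_le_pow_left₀ (by positivity)
    rw [div_le_iff₀ hly]
    rw [div_le_iff₀ (by positivity)] at g2
    linarith

/-- **Regular points, uniformly in the polynomials, for the density at the level `X`.** -/
theorem her_polyN (k D e : ℕ) (E δ' θ : ℝ) (hE : 0 < E) (hδ' : 0 < δ') (hθ : 0 < θ) :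
    ∃ r0 : ℕ, 2 ≤ r0 ∧ ∀ r : ℕ, r0 ≤ r → ∀ Cv : ℝ, 0 < Cv → ∀ ε : ℝ, 0 < ε → ∃ c : ℝ, 0 < c ∧
      ∀ δ : ℝ, 0 < δ → ∃ B : ℕ, ∀ᶠ X : ℕ in atTop, ∀ f : Fin k → ℤ[X], US k D ((X : ℝ) ^ E) 0 f →
      ∀ E0 : Finset ℕ, E0.card ≤ e → NoAs f E0 ((X : ℝ) ^ δ') →
      Vq (Q f) ⌊(X : ℝ) ^ (1 / (r : ℝ))⌋₊ ≤ Cv / Real.log X →
      ∀ u Y : ℕ, (X : ℝ) ^ θ ≤ Y → Y ≤ X → Y ≤ u →
      ∀ S : Set ℕ, (∀ m ∈ S, Sf (Q f) ⌊(X : ℝ) ^ (1 / (r : ℝ))⌋₊ m) →
        (cnt (Irregular S c (Vq (Q f) X) δ B Y) u (u + Y) : ℝ) ≤ ε * (Y * Vq (Q f) X) := by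
  obtain ⟨r0, hr0, h⟩ := hered_polys k D e E δ' θ hE hδ' hθ
  refine ⟨r0, hr0, ?_⟩
  intro r hr Cv hCv ε hε
  have hr2 : 2 ≤ r := hr0.trans hr
  obtain ⟨c₂, hc₂, hlev⟩ := Vq_level (k * D + 1) r hr2
  obtain ⟨c₀, hc₀, h2⟩ := h r hr Cv hCv (ε / c₂) (by positivity)
  obtain ⟨c, hc, htr⟩ := transfer c₀ 1 c₂ hc₀ one_pos hc₂
  refine ⟨c, hc, ?_⟩
  intro δ hδ
  obtain ⟨B, h3⟩ := h2 (δ / c₂) (by positivity)
  refine ⟨B, ?_⟩
  filter_upwards [h3, hlev] with X hX hlX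
  intro f hf E0 hE0 hno hV u Y hXY hYX hYu S hS
  obtain ⟨l1, l2⟩ := hlX (Q f) (us_perB hf) (us_adm hf)
  have hVX : 0 < Vq (Q f) X := Vq_pos _ (us_adm hf) X
  have hmain := hX f hf E0 hE0 hno hV u Y hXY hYX hYu S hS
  have ht := htr S (Vq (Q f) ⌊(X : ℝ) ^ (1 / (r : ℝ))⌋₊) (Vq (Q f) X) δ hVX (by rw [one_mul]; exact l1) l2
    hδ B Y u (u + Y)
  refine (Nat.cast_le.2 ht).trans (hmain.trans ?_)
  calc ε / c₂ * (Y * Vq (Q f) ⌊(X : ℝ) ^ (1 / (r : ℝ))⌋₊) ≤ ε / c₂ * (Y * (c₂ * Vq (Q f) X)) := by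
        apply mul_le_mul_of_nonneg_left _ (by positivity)
        exact mul_le_mul_of_nonneg_left l2 (Nat.cast_nonneg Y)
    _ = ε * (Y * Vq (Q f) X) := by
        field_simp

/-! ### Linear forms -/

/-- the linear forms `a i * n + b i` -/
noncomputable def lfs {k : ℕ} (a b : Fin k → ℤ) : Fin k → ℤ[X] := fun i => lf (a i) (b i)

lemma lfs_Q {k : ℕ} (a b : Fin k → ℤ) (p m : ℕ) (hp : p.Prime) :
    Q (lfs a b) p m ↔ (p : ℤ) ∣ ∏ i, (a i * m + b i) := by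
  have hpi : Prime (p : ℤ) := Nat.prime_iff_prime_int.1 hp
  unfold Q lfs
  rw [hpi.dvd_finsetProd_iff]
  constructor
  · rintro ⟨i, hi⟩
    rw [lf_eval] at hi
    exact ⟨i, Finset.mem_univ i, hi⟩
  · rintro ⟨i, _, hi⟩
    refine ⟨i, ?_⟩
    rw [lf_eval]
    exact hi

open Classical in
/-- the translations identifying two of the forms -/
noncomputable def E0s {k : ℕ} (a b : Fin k → ℤ) : Finset ℕ :=
  (Finset.univ : Finset (Fin k × Fin k)).image (fun ij => ((b ij.1 - b ij.2) / a ij.2).toNat)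

lemma E0s_card {k : ℕ} (a b : Fin k → ℤ) : (E0s a b).card ≤ k * k := by
  unfold E0s
  refine Finset.card_image_le.trans ?_
  rw [Finset.card_univ, Fintype.card_prod, Fintype.card_fin]

lemma lfs_noas {k : ℕ} (a b : Fin k → ℤ) (ha : ∀ i, 0 < a i) (U : ℝ) : NoAs (lfs a b) (E0s a b) U := by
  intro i j t ht _ htE h
  unfold lfs at h
  rcases lf_assoc _ _ _ _ _ h with ⟨h1, h2⟩ | ⟨h1, h2⟩
  · apply htE
    unfold E0s
    rw [Finset.mem_image]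
    refine ⟨(i, j), Finset.mem_univ _, ?_⟩
    have h3 : b i - b j = a j * t := by linarith
    simp only [h3]
    rw [Int.mul_ediv_cancel_left _ (ha j).ne', Int.toNat_natCast]
  · have := ha i
    have := ha j
    omega

/-- an admissible system of linear forms -/
structure Lsys {k : ℕ} (a b : Fin k → ℤ) : Prop where
  pos : ∀ i, 0 < a i
  dist : ∀ i j, i ≠ j → (a i, b i) ≠ (a j, b j)
  adm : ∀ p : ℕ, p.Prime → ∃ n : ℕ, ∀ i, ¬ (p : ℤ) ∣ a i * n + b i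

lemma Lsys.cop {k : ℕ} {a b : Fin k → ℤ} (h : Lsys a b) (i : Fin k) : IsCoprime (a i) (b i) := by
  by_contra hc
  have hg : Int.gcd (a i) (b i) ≠ 1 := fun h1 => hc (Int.isCoprime_iff_gcd_eq_one.2 h1)
  obtain ⟨p, hp, hpd⟩ := Nat.exists_prime_and_dvd hg
  obtain ⟨n, hn⟩ := h.adm p hp
  apply hn i
  have h1 : (p : ℤ) ∣ Int.gcd (a i) (b i) := Int.natCast_dvd_natCast.2 hpd
  have h2 : (p : ℤ) ∣ a i := h1.trans (Int.gcd_dvd_left ..)
  have h3 : (p : ℤ) ∣ b i := h1.trans (Int.gcd_dvd_right ..)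
  exact (h2.mul_right _).add h3

lemma Lsys.us {k : ℕ} {a b : Fin k → ℤ} (h : Lsys a b) (H : ℝ) (haH : ∀ i, (a i : ℝ) ≤ H)
    (hbH : ∀ i, |(b i : ℝ)| ≤ H) : US k 1 H 0 (lfs a b) := by
  apply us_lf k a b H 0
  · exact fun i => (h.pos i).ne'
  · exact h.cop
  · intro i
    have : (0 : ℝ) < a i := by exact_mod_cast h.pos i
    rw [abs_of_pos this]
    exact haH i
  · exact hbH
  · exact h.adm
  · intro i j t ht htU
    exfalso
    have : (1 : ℝ) ≤ t := by exact_mod_cast ht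
    linarith

/-- the determinant of the forms -/
lemma Lsys.det {k : ℕ} {a b : Fin k → ℤ} (h : Lsys a b) (i j : Fin k) (hij : i ≠ j) :
    a i * b j - a j * b i ≠ 0 := by
  intro h0
  have h1 : a i * b j = a j * b i := by linarith
  have h2 : a i ∣ a j := (h.cop i).dvd_of_dvd_mul_right (Dvd.intro _ h1)
  have h3 : a j ∣ a i := (h.cop j).dvd_of_dvd_mul_right (Dvd.intro _ h1.symm)
  have h4 : a i = a j := Int.dvd_antisymm (h.pos i).le (h.pos j).le h2 h3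
  rw [h4] at h1
  have h5 : b j = b i := mul_left_cancel₀ (h.pos j).ne' h1
  exact h.dist i j hij (by rw [h4, h5])

lemma Lsys.two {k : ℕ} {a b : Fin k → ℤ} (_ : Lsys a b) (i j : Fin k) (p : ℕ)
    (hp : p.Prime) (h1 : ¬ (p : ℤ) ∣ a i) (h2 : ¬ (p : ℤ) ∣ a j) (h3 : ¬ (p : ℤ) ∣ a i * b j - a j * b i) :
    2 ≤ nuB (Q (lfs a b)) p := by
  classical
  have : Fact p.Prime := ⟨hp⟩
  have hpi : Prime (p : ℤ) := Nat.prime_iff_prime_int.1 hp
  have hroot : ∀ l : Fin k, ¬ (p : ℤ) ∣ a l → ∃ r : ℕ, r < p ∧ (p : ℤ) ∣ a l * r + b l := by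
    intro l hl
    have ha0 : ((a l : ℤ) : ZMod p) ≠ 0 := by
      intro h0
      exact hl ((ZMod.intCast_zmod_eq_zero_iff_dvd _ _).1 h0)
    refine ⟨(-(b l : ZMod p) / (a l : ZMod p)).val, ZMod.val_lt _, ?_⟩
    rw [← ZMod.intCast_zmod_eq_zero_iff_dvd]
    push_cast
    rw [ZMod.natCast_zmod_val]
    field_simp
    ring
  obtain ⟨r, hr, hr2⟩ := hroot i h1
  obtain ⟨s, hs, hs2⟩ := hroot j h2
  have hrs : r ≠ s := by
    rintro rfl
    apply h3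
    have h5 : a i * b j - a j * b i = a i * (a j * r + b j) - a j * (a i * r + b i) := by ring
    rw [h5]
    exact (hs2.mul_left _).sub (hr2.mul_left _)
  have hsub : ({r, s} : Finset ℕ) ⊆ (range p).filter (fun n => Q (lfs a b) p n) := by
    intro n hn
    rw [Finset.mem_insert, Finset.mem_singleton] at hn
    rw [Finset.mem_filter, Finset.mem_range]
    rcases hn with rfl | rfl
    · exact ⟨hr, i, by unfold lfs; rw [lf_eval]; exact hr2⟩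
    · exact ⟨hs, j, by unfold lfs; rw [lf_eval]; exact hs2⟩
  have h6 := Finset.card_le_card hsub
  rw [Finset.card_pair hrs] at h6
  unfold nuB
  convert h6

/-- **Regular points for systems of linear forms, uniformly in the forms.** -/
theorem her_lfs (k : ℕ) (hk : 2 ≤ k) (A θ : ℝ) (hA : 0 < A) (hθ : 0 < θ) :
    ∃ r0 : ℕ, 2 ≤ r0 ∧ ∀ r : ℕ, r0 ≤ r → ∀ ε : ℝ, 0 < ε → ∃ c : ℝ, 0 < c ∧
      ∀ δ : ℝ, 0 < δ → ∃ B : ℕ, ∀ᶠ X : ℕ in atTop, ∀ a b : Fin k → ℤ, Lsys a b →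
      (∀ i, (a i : ℝ) ≤ (X : ℝ) ^ A) → (∀ i, |(b i : ℝ)| ≤ (X : ℝ) ^ A) →
      ∀ u Y : ℕ, (X : ℝ) ^ θ ≤ Y → Y ≤ X → Y ≤ u →
      ∀ S : Set ℕ, (∀ m ∈ S, Sf (Q (lfs a b)) ⌊(X : ℝ) ^ (1 / (r : ℝ))⌋₊ m) →
        (cnt (Irregular S c (Vq (Q (lfs a b)) X) δ B Y) u (u + Y) : ℝ) ≤
          ε * (Y * Vq (Q (lfs a b)) X) := by
  obtain ⟨r0, hr0, h⟩ := her_polyN k 1 (k * k) A 1 θ hA one_pos hθ
  refine ⟨r0, hr0, ?_⟩
  intro r hr ε hε
  have hr2 : 2 ≤ r := hr0.trans hr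
  obtain ⟨M, hM, hVup⟩ := V2_up (4 * A + 1) (by positivity) r hr2
  obtain ⟨c, hc, h2⟩ := h r hr M hM ε hε
  refine ⟨c, hc, fun δ hδ => ?_⟩
  obtain ⟨B, h3⟩ := h2 δ hδ
  refine ⟨B, ?_⟩
  filter_upwards [h3, hVup, eventually_ge_atTop 3] with X hX hVX hX3
  intro a b hab haX hbX u Y hXY hYX hYu S hS
  have hX2r : (3 : ℝ) ≤ X := by exact_mod_cast hX3
  have hX0 : (0 : ℝ) < X := by linarith
  refine hX (lfs a b) (hab.us _ haX hbX) (E0s a b) (E0s_card a b) (lfs_noas a b hab.pos _) ?_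
    u Y hXY hYX hYu S hS
  obtain ⟨i, hi⟩ : ∃ i : Fin k, i = ⟨0, by omega⟩ := ⟨_, rfl⟩
  obtain ⟨j, hj⟩ : ∃ j : Fin k, j = ⟨1, by omega⟩ := ⟨_, rfl⟩
  have hij : i ≠ j := by
    rw [hi, hj]
    intro h0
    have := congrArg Fin.val h0
    simp at this
  have hai := hab.pos i
  have haj := hab.pos j
  have hdet := hab.det i j hij
  obtain ⟨D, hD⟩ : ∃ D : ℕ, D = (a i * a j * (a i * b j - a j * b i)).natAbs := ⟨_, rfl⟩
  have hD1 : 1 ≤ D := by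
    rw [hD]
    exact Int.natAbs_pos.2 (mul_ne_zero (mul_pos hai haj).ne' hdet)
  have hXA : 0 < (X : ℝ) ^ A := Real.rpow_pos_of_pos hX0 _
  have hDX : (D : ℝ) ≤ (X : ℝ) ^ (4 * A + 1) := by
    have e1 : (D : ℝ) = |(a i : ℝ) * a j * (a i * b j - a j * b i)| := by
      rw [hD, Nat.cast_natAbs]
      push_cast
      rfl
    have h1 : |(a i : ℝ)| ≤ (X : ℝ) ^ A := by
      rw [abs_of_pos (by exact_mod_cast hai)]
      exact haX i
    have h2 : |(a j : ℝ)| ≤ (X : ℝ) ^ A := by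
      rw [abs_of_pos (by exact_mod_cast haj)]
      exact haX j
    have h4 : |(a i : ℝ) * b j - a j * b i| ≤ 2 * ((X : ℝ) ^ A * (X : ℝ) ^ A) := by
      refine (abs_sub _ _).trans ?_
      rw [abs_mul, abs_mul]
      have h5 := mul_le_mul h1 (hbX j) (abs_nonneg _) hXA.le
      have h6 := mul_le_mul h2 (hbX i) (abs_nonneg _) hXA.le
      linarith
    rw [e1, abs_mul, abs_mul]
    calc |(a i : ℝ)| * |(a j : ℝ)| * |(a i : ℝ) * b j - a j * b i|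
        ≤ (X : ℝ) ^ A * (X : ℝ) ^ A * (2 * ((X : ℝ) ^ A * (X : ℝ) ^ A)) := by gcongr
      _ = 2 * ((X : ℝ) ^ A) ^ 4 := by ring
      _ ≤ X * ((X : ℝ) ^ A) ^ 4 := by
          apply mul_le_mul_of_nonneg_right (by linarith) (by positivity)
      _ = (X : ℝ) ^ (4 * A + 1) := by
          rw [← Real.rpow_natCast ((X : ℝ) ^ A), ← Real.rpow_mul hX0.le, Real.rpow_add hX0, Real.rpow_one]
          rw [mul_comm (X : ℝ)]
          congr 2
          push_cast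
          ring
  apply hVX (Q (lfs a b)) D (us_adm (hab.us _ haX hbX)) hD1 hDX
  intro p hp hpD
  have hpD' : ¬ (p : ℤ) ∣ a i * a j * (a i * b j - a j * b i) := by
    intro h0
    exact hpD (by rw [hD]; exact Int.natCast_dvd.1 h0)
  apply hab.two i j p hp
  · exact fun h0 => hpD' ((h0.mul_right _).mul_right _)
  · exact fun h0 => hpD' ((h0.mul_left _).mul_right _)
  · exact fun h0 => hpD' (h0.mul_left _)

end Pool.Agent.Q236.GW
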