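import Pool.Agent.Y879.GL.GapZ
import Pool.Agent.TH464.PO.QuadAP

set_option autoImplicit false

/-!
# The system `m ^ 2 + 1`, `m ^ 2 + 3`, and the polynomial `m ^ 2 + 1`
-/

namespace Pool.Agent.Q236.GW

open Polynomial Finset Filter
open Pool.Agent.W123.RP Pool.Agent.H373R2.T7 Pool.Agent.W123.RU Pool.Agent.W123.RU.Poly
open Pool.Agent.TH464.PW Pool.Agent.TH464.PO

lemma hg (b c : ℤ) : ∀ p : ℕ, p.Prime → ¬ ((p : ℤ) ∣ (1 : ℤ) ∧ (p : ℤ) ∣ b ∧ (p : ℤ) ∣ c) := by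
  rintro p hp ⟨h1, -, -⟩
  have h2 : p ∣ 1 := by exact_mod_cast h1
  exact hp.one_lt.ne' (Nat.dvd_one.1 h2)

lemma hD (c : ℤ) (hc : 0 < c) : ¬ IsSquare ((0 : ℤ) ^ 2 - 4 * 1 * c) := by
  rintro ⟨x, hx⟩
  nlinarith [mul_self_nonneg x]

/-- the two constant terms -/
def cc : Fin 2 → ℤ := ![1, 3]

/-- the system -/
noncomputable def fp : Fin 2 → ℤ[X] := fun i => quad 1 0 (cc i)

lemma cc_pos (i : Fin 2) : 0 < cc i := by fin_cases i <;> decide

lemma fp_eval (i : Fin 2) (m : ℤ) : (fp i).eval m = m ^ 2 + cc i := by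
  unfold fp
  rw [quad_eval]
  ring

lemma fp_nat (m : ℕ) : ((fp 0).eval (m : ℤ) = ((m ^ 2 + 1 : ℕ) : ℤ)) ∧
    ((fp 1).eval (m : ℤ) = ((m ^ 2 + 3 : ℕ) : ℤ)) := by
  rw [fp_eval, fp_eval]
  constructor
  · unfold cc
    push_cast
    rfl
  · unfold cc
    push_cast
    rfl

lemma fp_adm (p : ℕ) (hp : p.Prime) : ∃ m : ℕ, ∀ i, ¬ (p : ℤ) ∣ (fp i).eval (m : ℤ) := by
  have key : ∃ m : ℕ, ¬ p ∣ m ^ 2 + 1 ∧ ¬ p ∣ m ^ 2 + 3 := by
    rcases Nat.lt_or_ge p 5 with h | h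
    · have h2 := hp.two_le
      interval_cases p
      · exact ⟨2, by decide, by decide⟩
      · exact ⟨2, by decide, by decide⟩
      · exact absurd hp (by decide)
    · refine ⟨0, ?_, ?_⟩
      · intro hd
        have := Nat.le_of_dvd (by norm_num) hd
        omega
      · intro hd
        have := Nat.le_of_dvd (by norm_num) hd
        omega
  obtain ⟨m, h1, h2⟩ := key
  refine ⟨m, ?_⟩
  intro i
  fin_cases i
  · intro hd
    exact h1 (Int.natCast_dvd_natCast.1 ((fp_nat m).1 ▸ hd))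
  · intro hd
    exact h2 (Int.natCast_dvd_natCast.1 ((fp_nat m).2 ▸ hd))

lemma fp_sys : Sys fp where
  irr := fun i => quad_irr 1 0 (cc i) one_ne_zero (hg 0 (cc i)) (hD (cc i) (cc_pos i))
  deg := fun i => by unfold fp; rw [quad_deg 1 0 (cc i) one_ne_zero]; norm_num
  lead := fun i => by unfold fp; rw [quad_lead 1 0 (cc i) one_ne_zero]; norm_num
  inj := by
    intro i j hij
    have h := congrArg (fun f : ℤ[X] => f.eval 0) hij
    simp only [fp_eval] at h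
    fin_cases i <;> fin_cases j <;> simp_all [cc]
  adm := fp_adm

lemma fp_noTr : NoTr fp := by
  intro i j t ht h
  have h0 := congrArg (fun f : ℤ[X] => f.eval 0) h
  have h1 := congrArg (fun f : ℤ[X] => f.eval (-(t : ℤ))) h
  simp only [eval_comp, eval_add, eval_X, eval_C, fp_eval] at h0 h1
  have ht' : (1 : ℤ) ≤ t := by exact_mod_cast ht
  nlinarith

lemma fp_Q (p m : ℕ) (hp : p.Prime) : Q fp p m ↔ p ∣ (m ^ 2 + 1) * (m ^ 2 + 3) := by
  unfold Q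
  rw [Fin.exists_fin_two, (fp_nat m).1, (fp_nat m).2, hp.dvd_mul]
  exact or_congr Int.natCast_dvd_natCast Int.natCast_dvd_natCast

/-- the polynomial `m ^ 2 + 1` -/
noncomputable def f1 : Fin 1 → ℤ[X] := qs 1 0 1

lemma f1_sys : Sys f1 := qs_sys 1 0 1 one_pos (hg 0 1) (by decide) (hD 1 one_pos)

lemma f1_noTr : NoTr f1 := qs_noTr 1 0 1 one_pos

lemma f1_Q (p m : ℕ) (_hp : p.Prime) : Q f1 p m ↔ p ∣ m ^ 2 + 1 := by
  unfold f1
  rw [qs_Q]
  have h : (1 : ℤ) * (m : ℤ) ^ 2 + 0 * m + 1 = ((m ^ 2 + 1 : ℕ) : ℤ) := by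
    push_cast
    ring
  rw [h]
  exact Int.natCast_dvd_natCast

lemma card_iff {s : Finset ℕ} {P P' : ℕ → Prop} (i1 : DecidablePred P) (i2 : DecidablePred P')
    (h : ∀ r ∈ s, (P r ↔ P' r)) : (@Finset.filter _ P i1 s).card = (@Finset.filter _ P' i2 s).card := by
  congr 1
  ext r
  rw [mem_filter, mem_filter]
  exact and_congr_right (h r)

end Pool.Agent.Q236.GW
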