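import Pool.Agent.Q236.GW.LinK
import Pool.Agent.Q236.GW.Pair

set_option autoImplicit false

/-!
# Pairs of linear forms with coprime leading coefficients, uniformly
-/

namespace Pool.Agent.Q236.GW

open Polynomial Finset Filter
open Pool.Agent.W123.RP Pool.Agent.H373R2.T7 Pool.Agent.W123.RU Pool.Agent.W123.RU.Poly
open Pool.Agent.TH464.PW Pool.Agent.TH464.PO Pool.Agent.Y879.AP Pool.Agent.Y879.GL

/-- the leading coefficients -/
def pa (a b : ℤ) : Fin 2 → ℤ := ![b, a]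

/-- the system `p₀ + b t`, `q₀ + a t` -/
noncomputable def pl (a b p₀ q₀ : ℤ) : Fin 2 → ℤ[X] := lfs (pa a b) ![p₀, q₀]

lemma pl_Q (a b p₀ q₀ : ℤ) (p m : ℕ) (hp : p.Prime) :
    Q (pl a b p₀ q₀) p m ↔ (p : ℤ) ∣ (p₀ + b * m) * (q₀ + a * m) := by
  unfold pl
  rw [lfs_Q _ _ p m hp, Fin.prod_univ_two]
  simp only [pa, Matrix.cons_val_zero, Matrix.cons_val_one]
  rw [add_comm (b * (m : ℤ)) p₀, add_comm (a * (m : ℤ)) q₀]

/-- the data of an equation `a p - b q = c` -/
structure Eqn (a b c p₀ q₀ : ℤ) : Prop where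
  apos : 0 < a
  bpos : 0 < b
  cne : c ≠ 0
  ab : IsCoprime a b
  ac : IsCoprime a c
  bc : IsCoprime b c
  ev : Even (a * b * c)
  eq : a * p₀ - b * q₀ = c

lemma root_iff (p : ℕ) [Fact p.Prime] (x y : ℤ) (hx : ((x : ℤ) : ZMod p) ≠ 0) (r : ℕ) :
    (p : ℤ) ∣ y + x * r ↔ (r : ZMod p) = -(y : ZMod p) / (x : ZMod p) := by
  rw [← ZMod.intCast_zmod_eq_zero_iff_dvd, eq_div_iff hx]
  push_cast
  constructor
  · intro h
    linear_combination h
  · intro h
    linear_combination h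

lemma card_root (p : ℕ) [Fact p.Prime] (z : ZMod p) :
    (Finset.range p).filter (fun r : ℕ => (r : ZMod p) = z) = {z.val} := by
  ext r
  rw [Finset.mem_filter, Finset.mem_range, Finset.mem_singleton]
  constructor
  · rintro ⟨hr, h⟩
    rw [← h, ZMod.val_natCast, Nat.mod_eq_of_lt hr]
  · rintro rfl
    exact ⟨ZMod.val_lt z, ZMod.natCast_zmod_val z⟩

lemma Eqn.nu {a b c p₀ q₀ : ℤ} (h : Eqn a b c p₀ q₀) (p : ℕ) (hp : p.Prime) :
    nuB (Q (pl a b p₀ q₀)) p = if p ∣ (a * b * c).natAbs then 1 else 2 := by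
  classical
  have : Fact p.Prime := ⟨hp⟩
  have hpi : Prime (p : ℤ) := Nat.prime_iff_prime_int.1 hp
  have h0 : nuB (Q (pl a b p₀ q₀)) p =
      ((range p).filter (fun r : ℕ => (p : ℤ) ∣ (p₀ + b * r) * (q₀ + a * r))).card := by
    unfold nuB
    exact card_iff _ _ (fun r _ => pl_Q a b p₀ q₀ p r hp)
  rw [h0]
  have hz : ∀ x : ℤ, ((x : ℤ) : ZMod p) = 0 ↔ (p : ℤ) ∣ x := fun x => ZMod.intCast_zmod_eq_zero_iff_dvd x p
  have hnu : ∀ x y : ℤ, IsCoprime x y → (p : ℤ) ∣ x → ¬ (p : ℤ) ∣ y := fun x y hxy hx hy =>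
    hpi.not_isUnit (hxy.isUnit_of_dvd' hx hy)
  have heq := h.eq
  by_cases ha : (p : ℤ) ∣ a
  · -- `p ∣ a`
    have hb : ¬ (p : ℤ) ∣ b := hnu a b h.ab ha
    have hc : ¬ (p : ℤ) ∣ c := hnu a c h.ac ha
    have hq : ¬ (p : ℤ) ∣ q₀ := by
      intro hq
      apply hc
      rw [← heq]
      exact (ha.mul_right _).sub (hq.mul_left _)
    have hb0 : ((b : ℤ) : ZMod p) ≠ 0 := fun h1 => hb ((hz b).1 h1)
    rw [if_pos (by
      rw [← Int.natCast_dvd]
      exact (ha.mul_right _).mul_right _)]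
    have hset : (range p).filter (fun r : ℕ => (p : ℤ) ∣ (p₀ + b * r) * (q₀ + a * r)) =
        (range p).filter (fun r : ℕ => (r : ZMod p) = -(p₀ : ZMod p) / (b : ZMod p)) := by
      apply Finset.filter_congr
      intro r _
      rw [← root_iff p b p₀ hb0 r, hpi.dvd_mul]
      constructor
      · rintro (h1 | h1)
        · exact h1
        · exfalso
          apply hq
          have h2 : q₀ = (q₀ + a * r) - a * r := by ring
          rw [h2]
          exact h1.sub (ha.mul_right _)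
      · exact Or.inl
    rw [hset, card_root, Finset.card_singleton]
  · by_cases hb : (p : ℤ) ∣ b
    · have hc : ¬ (p : ℤ) ∣ c := hnu b c h.bc hb
      have hpp : ¬ (p : ℤ) ∣ p₀ := by
        intro hq
        apply hc
        rw [← heq]
        exact (hq.mul_left _).sub (hb.mul_right _)
      have ha0 : ((a : ℤ) : ZMod p) ≠ 0 := fun h1 => ha ((hz a).1 h1)
      rw [if_pos (by
        rw [← Int.natCast_dvd]
        exact (hb.mul_left _).mul_right _)]
      have hset : (range p).filter (fun r : ℕ => (p : ℤ) ∣ (p₀ + b * r) * (q₀ + a * r)) =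
          (range p).filter (fun r : ℕ => (r : ZMod p) = -(q₀ : ZMod p) / (a : ZMod p)) := by
        apply Finset.filter_congr
        intro r _
        rw [← root_iff p a q₀ ha0 r, hpi.dvd_mul]
        constructor
        · rintro (h1 | h1)
          · exfalso
            apply hpp
            have h2 : p₀ = (p₀ + b * r) - b * r := by ring
            rw [h2]
            exact h1.sub (hb.mul_right _)
          · exact h1
        · exact Or.inr
      rw [hset, card_root, Finset.card_singleton]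
    · have ha0 : ((a : ℤ) : ZMod p) ≠ 0 := fun h1 => ha ((hz a).1 h1)
      have hb0 : ((b : ℤ) : ZMod p) ≠ 0 := fun h1 => hb ((hz b).1 h1)
      have hset : (range p).filter (fun r : ℕ => (p : ℤ) ∣ (p₀ + b * r) * (q₀ + a * r)) =
          (range p).filter (fun r : ℕ => (r : ZMod p) = -(p₀ : ZMod p) / (b : ZMod p)) ∪
          (range p).filter (fun r : ℕ => (r : ZMod p) = -(q₀ : ZMod p) / (a : ZMod p)) := by
        rw [← Finset.filter_or]
        apply Finset.filter_congr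
        intro r _
        rw [← root_iff p a q₀ ha0 r, ← root_iff p b p₀ hb0 r, hpi.dvd_mul]
      rw [hset, card_root, card_root]
      have hcz : ((c : ℤ) : ZMod p) = a * p₀ - b * q₀ := by
        rw [← heq]
        push_cast
        ring
      by_cases hc : (p : ℤ) ∣ c
      · rw [if_pos (by
          rw [← Int.natCast_dvd]
          exact hc.mul_left _)]
        have h1 : -(p₀ : ZMod p) / (b : ZMod p) = -(q₀ : ZMod p) / (a : ZMod p) := by
          rw [div_eq_div_iff hb0 ha0]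
          have h2 := (hz c).2 hc
          rw [hcz] at h2
          linear_combination -h2
        rw [h1, Finset.union_self, Finset.card_singleton]
      · rw [if_neg (by
          rw [← Int.natCast_dvd]
          intro h1
          rcases hpi.dvd_or_dvd h1 with h2 | h2
          · rcases hpi.dvd_or_dvd h2 with h3 | h3
            · exact ha h3
            · exact hb h3
          · exact hc h2)]
        have h1 : (-(p₀ : ZMod p) / (b : ZMod p)).val ≠ (-(q₀ : ZMod p) / (a : ZMod p)).val := by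
          intro h2
          have h3 := ZMod.val_injective p h2
          rw [div_eq_div_iff hb0 ha0] at h3
          apply hc
          rw [← hz c, hcz]
          linear_combination -h3
        rw [← Finset.insert_eq, Finset.card_pair h1]

lemma Eqn.V {a b c p₀ q₀ : ℤ} (h : Eqn a b c p₀ q₀) (y : ℕ) :
    Vq (Q (pl a b p₀ q₀)) y = VG (a * b * c).natAbs y := by
  rw [VG_eq]
  unfold Vq
  have h1 : pz y = (Finset.Icc 1 y).filter Nat.Prime := by
    ext p
    rw [mem_pz, Finset.mem_filter, Finset.mem_Icc]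
    exact ⟨fun h => ⟨⟨h.2.one_lt.le, h.1⟩, h.2⟩, fun h => ⟨h.1.2, h.2⟩⟩
  rw [h1]
  apply Finset.prod_congr rfl
  intro p hp
  rw [h.nu p (Finset.mem_filter.1 hp).2]
  split_ifs <;> norm_num

lemma Eqn.evn {a b c p₀ q₀ : ℤ} (h : Eqn a b c p₀ q₀) : Even (a * b * c).natAbs :=
  Int.natAbs_even.2 h.ev

lemma Eqn.one {a b c p₀ q₀ : ℤ} (h : Eqn a b c p₀ q₀) : 1 ≤ (a * b * c).natAbs :=
  Int.natAbs_pos.2 (mul_ne_zero (mul_pos h.apos h.bpos).ne' h.cne)

lemma Eqn.admB {a b c p₀ q₀ : ℤ} (h : Eqn a b c p₀ q₀) (p : ℕ) (hp : p.Prime) :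
    nuB (Q (pl a b p₀ q₀)) p < p := by
  rw [h.nu p hp]
  split_ifs with h1
  · exact hp.one_lt
  · rcases Nat.lt_or_ge 2 p with h3 | h3
    · exact h3
    · exfalso
      have h4 : p = 2 := by
        have := hp.two_le
        omega
      apply h1
      rw [h4]
      exact h.evn.two_dvd

lemma Eqn.lsys {a b c p₀ q₀ : ℤ} (h : Eqn a b c p₀ q₀) : Lsys (pa a b) ![p₀, q₀] where
  pos i := by
    fin_cases i
    · exact h.bpos
    · exact h.apos
  dist i j hij := by
    have key : ¬ (b = a ∧ p₀ = q₀) := by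
      rintro ⟨h1, h2⟩
      apply h.cne
      rw [← h.eq, h1, h2]
      ring
    fin_cases i <;> fin_cases j
    · exact absurd rfl hij
    · intro h0
      simp only [pa, Fin.zero_eta, Fin.mk_one, Matrix.cons_val_zero, Matrix.cons_val_one,
        Prod.mk.injEq] at h0
      exact key h0
    · intro h0
      simp only [pa, Fin.zero_eta, Fin.mk_one, Matrix.cons_val_zero, Matrix.cons_val_one,
        Prod.mk.injEq] at h0
      exact key ⟨h0.1.symm, h0.2.symm⟩
    · exact absurd rfl hij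
  adm p hp := by
    obtain ⟨m, _, hm⟩ := nu_exists (Q (pl a b p₀ q₀)) p (h.admB p hp)
    refine ⟨m, fun i hi => hm ⟨i, ?_⟩⟩
    unfold pl lfs
    rw [lf_eval]
    exact hi

/-- **Regular points for the solutions of `a p - b q = c`, uniformly.** -/
theorem her_eqn (A θ : ℝ) (hA : 0 < A) (hθ : 0 < θ) :
    ∃ r0 : ℕ, 2 ≤ r0 ∧ ∀ r : ℕ, r0 ≤ r → ∀ ε : ℝ, 0 < ε → ∃ c₀ : ℝ, 0 < c₀ ∧
      ∀ δ : ℝ, 0 < δ → ∃ B : ℕ, ∀ᶠ X : ℕ in atTop, ∀ a b c p₀ q₀ : ℤ, Eqn a b c p₀ q₀ →
      (a : ℝ) ≤ (X : ℝ) ^ A → (b : ℝ) ≤ (X : ℝ) ^ A → |(p₀ : ℝ)| ≤ (X : ℝ) ^ A → |(q₀ : ℝ)| ≤ (X : ℝ) ^ A →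
      ∀ u Y : ℕ, (X : ℝ) ^ θ ≤ Y → Y ≤ X → Y ≤ u →
      ∀ S : Set ℕ, (∀ m ∈ S, Sf (Q (pl a b p₀ q₀)) ⌊(X : ℝ) ^ (1 / (r : ℝ))⌋₊ m) →
        (cnt (Irregular S c₀ (SG (a * b * c).natAbs / Real.log X ^ 2) δ B Y) u (u + Y) : ℝ) ≤
          ε * (Y * (SG (a * b * c).natAbs / Real.log X ^ 2)) := by
  obtain ⟨r0, hr0, h⟩ := hered_polys 2 1 4 A 1 θ hA one_pos hθ
  refine ⟨r0, hr0, ?_⟩
  intro r hr ε hε
  have hr2 : 2 ≤ r := hr0.trans hr
  obtain ⟨M, hM, hVup⟩ := V2_up (4 * A + 1) (by positivity) r hr2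
  obtain ⟨c₁, c₂, hc₁, hc₂, hord⟩ := VG_orderU (4 * A + 1) r hr2
  obtain ⟨c₀, hc₀, h2⟩ := h r hr M hM (ε / c₂) (by positivity)
  obtain ⟨c', hc', htr⟩ := transfer c₀ c₁ c₂ hc₀ hc₁ hc₂
  refine ⟨c', hc', ?_⟩
  intro δ hδ
  obtain ⟨B, h3⟩ := h2 (δ / c₂) (by positivity)
  refine ⟨B, ?_⟩
  filter_upwards [h3, hVup, hord, eventually_ge_atTop 3] with X hX hVX hoX hX3
  intro a b c p₀ q₀ he haX hbX hpX hqX u Y hXY hYX hYu S hS
  have hX2r : (3 : ℝ) ≤ X := by exact_mod_cast hX3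
  have hX0 : (0 : ℝ) < X := by linarith
  have hA0 : 0 < (X : ℝ) ^ A := Real.rpow_pos_of_pos hX0 _
  obtain ⟨D, hD⟩ : ∃ D : ℕ, D = (a * b * c).natAbs := ⟨_, rfl⟩
  have hD1 : 1 ≤ D := by rw [hD]; exact he.one
  have hDev : Even D := by rw [hD]; exact he.evn
  have hDX : (D : ℝ) ≤ (X : ℝ) ^ (4 * A + 1) := by
    have e1 : (D : ℝ) = |(a : ℝ) * b * c| := by
      rw [hD, Nat.cast_natAbs]
      push_cast
      rfl
    have ha1 : |(a : ℝ)| ≤ (X : ℝ) ^ A := by
      rw [abs_of_pos (by exact_mod_cast he.apos)]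
      exact haX
    have hb1 : |(b : ℝ)| ≤ (X : ℝ) ^ A := by
      rw [abs_of_pos (by exact_mod_cast he.bpos)]
      exact hbX
    have hc1 : |(c : ℝ)| ≤ 2 * ((X : ℝ) ^ A * (X : ℝ) ^ A) := by
      have e2 : (c : ℝ) = a * p₀ - b * q₀ := by
        rw [← he.eq]
        push_cast
        ring
      rw [e2]
      refine (abs_sub _ _).trans ?_
      rw [abs_mul, abs_mul]
      have h5 := mul_le_mul ha1 hpX (abs_nonneg _) hA0.le
      have h6 := mul_le_mul hb1 hqX (abs_nonneg _) hA0.le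
      linarith
    rw [e1, abs_mul, abs_mul]
    calc |(a : ℝ)| * |(b : ℝ)| * |(c : ℝ)|
        ≤ (X : ℝ) ^ A * (X : ℝ) ^ A * (2 * ((X : ℝ) ^ A * (X : ℝ) ^ A)) := by gcongr
      _ = 2 * ((X : ℝ) ^ A) ^ 4 := by ring
      _ ≤ X * ((X : ℝ) ^ A) ^ 4 := by
          apply mul_le_mul_of_nonneg_right (by linarith) (by positivity)
      _ = (X : ℝ) ^ (4 * A + 1) := by
          rw [← Real.rpow_natCast ((X : ℝ) ^ A), ← Real.rpow_mul hX0.le, Real.rpow_add hX0, Real.rpow_one]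
          rw [mul_comm (X : ℝ)]
          congr 2
          push_cast
          ring
  rw [← hD]
  obtain ⟨V, hV⟩ : ∃ V, V = VG D ⌊(X : ℝ) ^ (1 / (r : ℝ))⌋₊ := ⟨_, rfl⟩
  have hVf : Vq (Q (pl a b p₀ q₀)) ⌊(X : ℝ) ^ (1 / (r : ℝ))⌋₊ = V := by
    rw [hV, hD]
    exact he.V _
  obtain ⟨ho1, ho2⟩ := hoX D hDev hD1 hDX
  rw [← hV] at ho1 ho2
  have hL : 0 < Real.log X := Real.log_pos (by linarith)
  have hdens : 0 < SG D / Real.log X ^ 2 := div_pos (SG_pos D) (by positivity)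
  have hus : US 2 1 ((X : ℝ) ^ A) 0 (pl a b p₀ q₀) := by
    apply he.lsys.us
    · intro i
      fin_cases i
      · exact hbX
      · exact haX
    · intro i
      fin_cases i
      · exact hpX
      · exact hqX
  have hmain := hX (pl a b p₀ q₀) hus (E0s (pa a b) ![p₀, q₀]) (E0s_card _ _)
    (lfs_noas _ _ he.lsys.pos _) (by
      apply hVX (Q (pl a b p₀ q₀)) D he.admB hD1 hDX
      intro p hp hpD
      rw [he.nu p hp, ← hD, if_neg hpD]) u Y hXY hYX hYu S hS
  rw [hVf] at hmain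
  have ht := htr S V (SG D / Real.log X ^ 2) δ hdens ho1 ho2 hδ B Y u (u + Y)
  refine (Nat.cast_le.2 ht).trans (hmain.trans ?_)
  calc ε / c₂ * (Y * V) ≤ ε / c₂ * (Y * (c₂ * (SG D / Real.log X ^ 2))) := by
        apply mul_le_mul_of_nonneg_left _ (by positivity)
        exact mul_le_mul_of_nonneg_left ho2 (Nat.cast_nonneg Y)
    _ = ε * (Y * (SG D / Real.log X ^ 2)) := by
        field_simp

/-- **The gap law for the solutions of `a p - b q = c`, uniformly.** -/
theorem gap_eqn (A η θ : ℝ) (hA : 0 < A) (hη : 0 < η) (hθ : 0 < θ) (k0 : ℕ) (x0 ε : ℝ) (hε : 0 < ε) :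
    ∃ r0 : ℕ, 2 ≤ r0 ∧ ∀ r : ℕ, r0 ≤ r → ∀ᶠ X : ℕ in atTop, ∀ a b c p₀ q₀ : ℤ, Eqn a b c p₀ q₀ →
      (a : ℝ) ≤ (X : ℝ) ^ A → (b : ℝ) ≤ (X : ℝ) ^ A → |(p₀ : ℝ)| ≤ (X : ℝ) ^ A → |(q₀ : ℝ)| ≤ (X : ℝ) ^ A →
      (a = 1 → b = 1 → (X : ℝ) ^ η < |(c : ℝ)|) →
      ∀ Z Y : ℕ, (X : ℝ) ^ θ ≤ Y →
      ∀ k T : ℕ, (k ≤ k0 ∨ T * VG (a * b * c).natAbs ⌊(X : ℝ) ^ (1 / (r : ℝ))⌋₊ ≤ x0) →
        |(Pk (Sf (Q (pl a b p₀ q₀)) ⌊(X : ℝ) ^ (1 / (r : ℝ))⌋₊) k T Z Y : ℝ) -
          Y * VG (a * b * c).natAbs ⌊(X : ℝ) ^ (1 / (r : ℝ))⌋₊ *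
            Ck k (T * VG (a * b * c).natAbs ⌊(X : ℝ) ^ (1 / (r : ℝ))⌋₊)| ≤
          ε * (Y * VG (a * b * c).natAbs ⌊(X : ℝ) ^ (1 / (r : ℝ))⌋₊) := by
  obtain ⟨r0, h⟩ := gap_polys 2 1 A η θ hA hη hθ k0 x0 ε hε
  refine ⟨max r0 2, le_max_right _ _, ?_⟩
  intro r hr
  have hr2 : 2 ≤ r := (le_max_right _ _).trans hr
  obtain ⟨M, hM, hVup⟩ := V2_up (4 * A + 1) (by positivity) r hr2
  filter_upwards [h r ((le_max_left _ _).trans hr) M, hVup, eventually_ge_atTop 3] with X hX hVX hX3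
  intro a b c p₀ q₀ he haX hbX hpX hqX hcη Z Y hY k T hkT
  have hX2r : (3 : ℝ) ≤ X := by exact_mod_cast hX3
  have hX0 : (0 : ℝ) < X := by linarith
  have hA0 : 0 < (X : ℝ) ^ A := Real.rpow_pos_of_pos hX0 _
  obtain ⟨D, hD⟩ : ∃ D : ℕ, D = (a * b * c).natAbs := ⟨_, rfl⟩
  have hD1 : 1 ≤ D := by rw [hD]; exact he.one
  have hDX : (D : ℝ) ≤ (X : ℝ) ^ (4 * A + 1) := by
    have e1 : (D : ℝ) = |(a : ℝ) * b * c| := by
      rw [hD, Nat.cast_natAbs]
      push_cast
      rfl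
    have ha1 : |(a : ℝ)| ≤ (X : ℝ) ^ A := by
      rw [abs_of_pos (by exact_mod_cast he.apos)]
      exact haX
    have hb1 : |(b : ℝ)| ≤ (X : ℝ) ^ A := by
      rw [abs_of_pos (by exact_mod_cast he.bpos)]
      exact hbX
    have hc1 : |(c : ℝ)| ≤ 2 * ((X : ℝ) ^ A * (X : ℝ) ^ A) := by
      have e2 : (c : ℝ) = a * p₀ - b * q₀ := by
        rw [← he.eq]
        push_cast
        ring
      rw [e2]
      refine (abs_sub _ _).trans ?_
      rw [abs_mul, abs_mul]
      have h5 := mul_le_mul ha1 hpX (abs_nonneg _) hA0.le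
      have h6 := mul_le_mul hb1 hqX (abs_nonneg _) hA0.le
      linarith
    rw [e1, abs_mul, abs_mul]
    calc |(a : ℝ)| * |(b : ℝ)| * |(c : ℝ)|
        ≤ (X : ℝ) ^ A * (X : ℝ) ^ A * (2 * ((X : ℝ) ^ A * (X : ℝ) ^ A)) := by gcongr
      _ = 2 * ((X : ℝ) ^ A) ^ 4 := by ring
      _ ≤ X * ((X : ℝ) ^ A) ^ 4 := by
          apply mul_le_mul_of_nonneg_right (by linarith) (by positivity)
      _ = (X : ℝ) ^ (4 * A + 1) := by
          rw [← Real.rpow_natCast ((X : ℝ) ^ A), ← Real.rpow_mul hX0.le, Real.rpow_add hX0, Real.rpow_one]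
          rw [mul_comm (X : ℝ)]
          congr 2
          push_cast
          ring
  have hVf : Vq (Q (pl a b p₀ q₀)) ⌊(X : ℝ) ^ (1 / (r : ℝ))⌋₊ =
      VG (a * b * c).natAbs ⌊(X : ℝ) ^ (1 / (r : ℝ))⌋₊ := he.V _
  rw [← hVf] at hkT ⊢
  refine hX (pl a b p₀ q₀) ?_ ?_ Z Y hY k T hkT
  · apply us_lf 2 (pa a b) ![p₀, q₀] _ _
    · exact fun i => (he.lsys.pos i).ne'
    · exact he.lsys.cop
    · intro i
      have h1 : (0 : ℝ) < (pa a b i : ℤ) := by exact_mod_cast he.lsys.pos i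
      rw [abs_of_pos h1]
      fin_cases i
      · exact hbX
      · exact haX
    · intro i
      fin_cases i
      · exact hpX
      · exact hqX
    · exact he.lsys.adm
    · -- no translates
      have hone : ∀ t : ℕ, a = b → ((t : ℝ) ≤ (X : ℝ) ^ η) → |c| = t → False := by
        intro t hab htX hct
        have h1 : IsUnit a := by
          have h2 := he.ab
          rw [← hab] at h2
          exact isCoprime_self.1 h2
        have h2 : a = 1 := by
          rcases Int.isUnit_iff.1 h1 with h3 | h3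
          · exact h3
          · have := he.apos
            omega
        have h3 := hcη h2 (by rw [← hab]; exact h2)
        have h4 : |(c : ℝ)| = t := by
          have : ((|c| : ℤ) : ℝ) = ((t : ℤ) : ℝ) := by rw [hct]
          push_cast at this
          exact this
        rw [h4] at h3
        linarith
      have heq := he.eq
      have hap := he.apos
      have hbp := he.bpos
      intro i j t ht htX
      have ht' : (1 : ℤ) ≤ t := by exact_mod_cast ht
      have hunit : a = b → a = 1 := by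
        intro hab
        have h2 := he.ab
        rw [← hab] at h2
        rcases Int.isUnit_iff.1 (isCoprime_self.1 h2) with h3 | h3
        · exact h3
        · omega
      fin_cases i <;> fin_cases j
      · simp only [pa, Fin.zero_eta, Matrix.cons_val_zero]
        constructor
        · rintro ⟨_, h2⟩
          have h3 : b * t = 0 := by linarith
          have h4 : 0 < b * t := mul_pos hbp (by omega)
          omega
        · rintro ⟨h1, _⟩
          omega
      · simp only [pa, Fin.zero_eta, Fin.mk_one, Matrix.cons_val_zero, Matrix.cons_val_one]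
        constructor
        · rintro ⟨h1, h2⟩
          have ha1 := hunit h1.symm
          apply hone t h1.symm htX
          have hb1 : b = 1 := by rw [h1]; exact ha1
          rw [← heq, h2, hb1, ha1]
          have : (1 : ℤ) * (q₀ + 1 * t) - 1 * q₀ = t := by ring
          rw [this]
          exact abs_of_pos (by omega)
        · rintro ⟨h1, _⟩
          omega
      · simp only [pa, Fin.zero_eta, Fin.mk_one, Matrix.cons_val_zero, Matrix.cons_val_one]
        constructor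
        · rintro ⟨h1, h2⟩
          have ha1 := hunit h1
          apply hone t h1 htX
          have hb1 : b = 1 := by rw [← h1]; exact ha1
          rw [← heq, h2, hb1, ha1]
          have : (1 : ℤ) * p₀ - 1 * (p₀ + 1 * t) = -t := by ring
          rw [this, abs_neg]
          exact abs_of_pos (by omega)
        · rintro ⟨h1, _⟩
          omega
      · show ¬ (a = a ∧ q₀ = q₀ + a * (t : ℤ)) ∧ ¬ (a = -a ∧ q₀ = -(q₀ + a * (t : ℤ)))
        constructor
        · rintro ⟨_, h2⟩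
          have h3 : a * t = 0 := by linarith
          have h4 : 0 < a * t := mul_pos hap (by omega)
          omega
        · rintro ⟨h1, _⟩
          omega
  · apply hVX (Q (pl a b p₀ q₀)) D he.admB hD1 hDX
    intro p hp hpD
    rw [he.nu p hp, ← hD, if_neg hpD]

end Pool.Agent.Q236.GW
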