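import Pool.Agent.Q236.GW.LinK
import Pool.Agent.Q236.GW.Pair

set_option autoImplicit false

/-!
# Systems of polynomials: the translations that identify two members, and the uniform theorem
-/

namespace Pool.Agent.Q236.GW

open Polynomial Finset Filter
open Pool.Agent.W123.RP Pool.Agent.H373R2.T7 Pool.Agent.W123.RU Pool.Agent.W123.RU.Poly
open Pool.Agent.TH464.PW Pool.Agent.TH464.PO Pool.Agent.Y879.AP Pool.Agent.Y879.GL

lemma assoc_comp {f g : ℤ[X]} (h : Associated f g) (s : ℤ) :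
    Associated (f.comp (X + C s)) (g.comp (X + C s)) := by
  rcases assoc_cases h with h1 | h1
  · rw [h1]
  · rw [h1, neg_comp]
    exact (Associated.refl _).neg_left

lemma comp_shift (f : ℤ[X]) (s t : ℤ) : (f.comp (X + C s)).comp (X + C t) = f.comp (X + C (s + t)) := by
  rw [comp_assoc, add_comp, X_comp, C_comp, add_assoc, ← C_add, add_comm t s]

/-- two translates of a nonconstant polynomial are not associated -/
lemma shift_unique (f g : ℤ[X]) (hg : g.natDegree ≠ 0) (s t : ℤ)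
    (h1 : Associated f (g.comp (X + C s))) (h2 : Associated f (g.comp (X + C t))) : s = t := by
  by_contra hne
  have h3 : Associated (g.comp (X + C s)) (g.comp (X + C t)) := h1.symm.trans h2
  have h4 := assoc_comp h3 (-s)
  rw [comp_shift, comp_shift, add_neg_cancel, C_0, add_zero, comp_X] at h4
  exact no_self g hg (t + -s) (by omega) h4

open Classical in
/-- the translations which identify two members of the system -/
noncomputable def EP {k : ℕ} (f : Fin k → ℤ[X]) : Finset ℕ :=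
  (Finset.univ : Finset (Fin k × Fin k)).image (fun ij =>
    if h : ∃ t : ℕ, Associated (f ij.1) ((f ij.2).comp (X + C (t : ℤ))) then h.choose else 0)

lemma EP_card {k : ℕ} (f : Fin k → ℤ[X]) : (EP f).card ≤ k * k := by
  unfold EP
  refine Finset.card_image_le.trans ?_
  rw [Finset.card_univ, Fintype.card_prod, Fintype.card_fin]

lemma EP_noas {k : ℕ} (f : Fin k → ℤ[X]) (hf : ∀ i, (f i).natDegree ≠ 0) (U : ℝ) : NoAs f (EP f) U := by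
  intro i j t _ _ htE h
  apply htE
  unfold EP
  rw [Finset.mem_image]
  refine ⟨(i, j), Finset.mem_univ _, ?_⟩
  have hex : ∃ t : ℕ, Associated (f i) ((f j).comp (X + C (t : ℤ))) := ⟨t, h⟩
  simp only
  rw [dif_pos hex]
  have h1 := shift_unique (f i) (f j) (hf j) _ _ hex.choose_spec h
  exact_mod_cast h1

/-- **Regular points for systems of polynomials, uniformly.** -/
theorem her_sys (k D : ℕ) (E θ : ℝ) (hE : 0 < E) (hθ : 0 < θ) :
    ∃ r0 : ℕ, 2 ≤ r0 ∧ ∀ r : ℕ, r0 ≤ r → ∀ Cv : ℝ, 0 < Cv → ∀ ε : ℝ, 0 < ε → ∃ c : ℝ, 0 < c ∧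
      ∀ δ : ℝ, 0 < δ → ∃ B : ℕ, ∀ᶠ X : ℕ in atTop, ∀ f : Fin k → ℤ[X], US k D ((X : ℝ) ^ E) 0 f →
      Vq (Q f) X ≤ Cv / Real.log X →
      ∀ u Y : ℕ, (X : ℝ) ^ θ ≤ Y → Y ≤ X → Y ≤ u →
      ∀ S : Set ℕ, (∀ m ∈ S, Sf (Q f) ⌊(X : ℝ) ^ (1 / (r : ℝ))⌋₊ m) →
        (cnt (Irregular S c (Vq (Q f) X) δ B Y) u (u + Y) : ℝ) ≤ ε * (Y * Vq (Q f) X) := by
  obtain ⟨r0, hr0, h⟩ := her_polyN k D (k * k) E 1 θ hE one_pos hθ
  refine ⟨r0, hr0, ?_⟩
  intro r hr Cv hCv ε hε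
  have hr2 : 2 ≤ r := hr0.trans hr
  obtain ⟨C, hC, hlev⟩ := Vq_level (k * D + 1) r hr2
  obtain ⟨c, hc, h2⟩ := h r hr (C * Cv) (by positivity) ε hε
  refine ⟨c, hc, fun δ hδ => ?_⟩
  obtain ⟨B, h3⟩ := h2 δ hδ
  refine ⟨B, ?_⟩
  filter_upwards [h3, hlev] with X hX hlX
  intro f hf hV u Y hXY hYX hYu S hS
  refine hX f hf (EP f) (EP_card f) (EP_noas f hf.deg _) ?_ u Y hXY hYX hYu S hS
  refine (hlX (Q f) (us_perB hf) (us_adm hf)).2.trans ?_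
  rw [mul_div_assoc]
  exact mul_le_mul_of_nonneg_left hV hC.le

/-- **The gap law for systems of polynomials, uniformly.** -/
theorem gap_sys (k D : ℕ) (E η θ : ℝ) (hE : 0 < E) (hη : 0 < η) (hθ : 0 < θ) (k0 : ℕ) (x0 ε : ℝ) (hε : 0 < ε) :
    ∃ r0 : ℕ, 2 ≤ r0 ∧ ∀ r : ℕ, r0 ≤ r → ∀ Cv : ℝ, 0 < Cv → ∀ᶠ X : ℕ in atTop,
      ∀ f : Fin k → ℤ[X], US k D ((X : ℝ) ^ E) ((X : ℝ) ^ η) f →
      Vq (Q f) X ≤ Cv / Real.log X →
      ∀ Z Y : ℕ, (X : ℝ) ^ θ ≤ Y →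
      ∀ l T : ℕ, (l ≤ k0 ∨ T * Vq (Q f) ⌊(X : ℝ) ^ (1 / (r : ℝ))⌋₊ ≤ x0) →
        |(Pk (Sf (Q f) ⌊(X : ℝ) ^ (1 / (r : ℝ))⌋₊) l T Z Y : ℝ) -
          Y * Vq (Q f) ⌊(X : ℝ) ^ (1 / (r : ℝ))⌋₊ *
            Ck l (T * Vq (Q f) ⌊(X : ℝ) ^ (1 / (r : ℝ))⌋₊)| ≤
          ε * (Y * Vq (Q f) ⌊(X : ℝ) ^ (1 / (r : ℝ))⌋₊) := by
  obtain ⟨r0, h⟩ := gap_polys k D E η θ hE hη hθ k0 x0 ε hε
  refine ⟨max r0 2, le_max_right _ _, ?_⟩
  intro r hr Cv hCv
  have hr2 : 2 ≤ r := (le_max_right _ _).trans hr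
  obtain ⟨C, hC, hlev⟩ := Vq_level (k * D + 1) r hr2
  filter_upwards [h r ((le_max_left _ _).trans hr) (C * Cv), hlev] with X hX hlX
  intro f hf hV Z Y hY l T hT
  refine hX f hf ?_ Z Y hY l T hT
  have hf' : US k D ((X : ℝ) ^ E) ((X : ℝ) ^ η) f := hf
  refine (hlX (Q f) (us_perB hf) (us_adm hf)).2.trans ?_
  rw [mul_div_assoc]
  exact mul_le_mul_of_nonneg_left hV hC.le

end Pool.Agent.Q236.GW
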