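import Pool.Agent.Q236.GW.PolyU
import Pool.Agent.Y879.PR.Full
import Pool.Agent.Y879.GL.QuadU

set_option autoImplicit false

/-!
# Systems of polynomials one of which is a linear form with prime values
-/

namespace Pool.Agent.Q236.GW

open Polynomial Finset Filter
open Pool.Agent.W123.RP Pool.Agent.H373R2.T7 Pool.Agent.W123.RU Pool.Agent.W123.RU.Poly
open Pool.Agent.TH464.PW Pool.Agent.TH464.PO Pool.Agent.Y879.AP Pool.Agent.Y879.GL Pool.Agent.Y879.PR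

/-- the density of a system which contains a linear form -/
lemma V_base (a : ℕ) (ha : 0 < a) (Q : ℕ → ℕ → Prop) (hQ : ∀ p : ℕ, p.Prime → ¬ p ∣ a → 1 ≤ nuB Q p)
    (hadm : ∀ p : ℕ, p.Prime → nuB Q p < p) (y : ℕ) : Vq Q y ≤ 2 ^ a * Vz y := by
  have h1 : Vq Q y ≤ ∏ p ∈ pz y, ((if p ∣ a then (2 : ℝ) else 1) * (1 - 1 / (p : ℝ))) := by
    unfold Vq
    apply Finset.prod_le_prod
    · intro p hp
      exact one_sub_nonneg _ p (mem_pz.1 hp).2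
    · intro p hp
      have hpp := (mem_pz.1 hp).2
      have hp2 : (2 : ℝ) ≤ p := by exact_mod_cast hpp.two_le
      have hp0 : (0 : ℝ) < p := by linarith
      split_ifs with h
      · have h2 : 1 / (p : ℝ) ≤ 1 / 2 := one_div_le_one_div_of_le (by norm_num) hp2
        have h3 : (0 : ℝ) ≤ (nuB Q p : ℝ) / p := by positivity
        linarith
      · have h2 : (1 : ℝ) ≤ nuB Q p := by exact_mod_cast hQ p hpp h
        have h3 : 1 / (p : ℝ) ≤ (nuB Q p : ℝ) / p := by gcongr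
        linarith
  refine h1.trans ?_
  rw [Finset.prod_mul_distrib]
  apply mul_le_mul_of_nonneg_right _ (Pool.Agent.H373R2.T7.Vz_pos y).le
  have h2 : ∏ p ∈ pz y, (if p ∣ a then (2 : ℝ) else 1) = 2 ^ ((pz y).filter (fun p => p ∣ a)).card := by
    rw [← Finset.prod_filter, Finset.prod_const]
  rw [h2]
  apply pow_le_pow_right₀ (by norm_num)
  have h3 : (pz y).filter (fun p => p ∣ a) ⊆ Finset.Icc 1 a := by
    intro p hp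
    rw [Finset.mem_filter] at hp
    rw [Finset.mem_Icc]
    exact ⟨(mem_pz.1 hp.1).2.one_lt.le, Nat.le_of_dvd ha hp.2⟩
  have := Finset.card_le_card h3
  rwa [Nat.card_Icc, Nat.add_sub_cancel] at this

lemma base_nu {k : ℕ} (f : Fin k → ℤ[X]) (a b : ℕ) (hf : ∃ i, ∀ n : ℕ, (f i).eval (n : ℤ) = a * n + b)
    (p : ℕ) (hp : p.Prime) (hpa : ¬ p ∣ a) : 1 ≤ nuB (Q f) p := by
  classical
  have : Fact p.Prime := ⟨hp⟩
  obtain ⟨i, hi⟩ := hf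
  have ha0 : ((a : ℕ) : ZMod p) ≠ 0 := by
    intro h
    exact hpa ((ZMod.natCast_eq_zero_iff a p).1 h)
  unfold nuB
  apply Finset.card_pos.2
  refine ⟨(-(b : ZMod p) / (a : ZMod p)).val, ?_⟩
  rw [Finset.mem_filter, Finset.mem_range]
  refine ⟨ZMod.val_lt _, i, ?_⟩
  rw [hi, ← ZMod.intCast_zmod_eq_zero_iff_dvd]
  push_cast
  rw [ZMod.natCast_zmod_val]
  field_simp
  ring

open Classical in
/-- **Primes `a n + b` with the other members of the system almost prime, uniformly in the system.** -/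
theorem prime_sys (a k D : ℕ) (ha : Squarefree a) (E η θ δ : ℝ) (hE : 0 < E) (hη : 0 < η)
    (hθ : 0 < θ) (hδ : 0 < δ) (hδ1 : δ ≤ 1) (x0 ε : ℝ) (hε : 0 < ε) (hε1 : ε ≤ 1) :
    ∃ r0 : ℕ, 2 ≤ r0 ∧ ∀ r : ℕ, r0 ≤ r → ∀ᶠ N : ℕ in atTop,
      ∀ (f : Fin k → ℤ[X]) (b : ℕ), US k D ((N : ℝ) ^ E) ((N : ℝ) ^ η) f → Nat.Coprime a b →
      (∀ p n : ℕ, p.Prime → p ∣ a → ¬ Q f p n) →
      (∃ i, ∀ n : ℕ, (f i).eval (n : ℤ) = a * n + b) → (b : ℝ) ≤ (N : ℝ) ^ (θ / 4) →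
      ∀ X : ℕ, (N : ℝ) ^ θ ≤ X → ∀ u Y : ℕ, δ * X ≤ Y → u + Y ≤ X →
      |((((Ioc u (u + Y)).filter (fun n => (a * n + b).Prime ∧ Sf (Q f) ⌊(N : ℝ) ^ (1 / (r : ℝ))⌋₊ n)).card : ℕ) : ℝ) *
          Real.log X - Y * (Vq (Q f) ⌊(N : ℝ) ^ (1 / (r : ℝ))⌋₊ / Vz ⌊(N : ℝ) ^ (1 / (r : ℝ))⌋₊)| ≤
        ε * (Y * (Vq (Q f) ⌊(N : ℝ) ^ (1 / (r : ℝ))⌋₊ / Vz ⌊(N : ℝ) ^ (1 / (r : ℝ))⌋₊)) ∧
      ∀ T : ℕ, T * Vq (Q f) ⌊(N : ℝ) ^ (1 / (r : ℝ))⌋₊ ≤ x0 → ∀ B : Finset ℕ,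
      |((((Ioc u (u + Y)).filter (fun n => ((a * n + b).Prime ∧ Sf (Q f) ⌊(N : ℝ) ^ (1 / (r : ℝ))⌋₊ n) ∧
          Wc (Sf (Q f) ⌊(N : ℝ) ^ (1 / (r : ℝ))⌋₊) n T ∈ B)).card : ℕ) : ℝ) -
        (((Ioc u (u + Y)).filter (fun n => (a * n + b).Prime ∧ Sf (Q f) ⌊(N : ℝ) ^ (1 / (r : ℝ))⌋₊ n)).card : ℕ) *
          ∑ j ∈ B, Real.exp (-(T * Vq (Q f) ⌊(N : ℝ) ^ (1 / (r : ℝ))⌋₊)) *
            (T * Vq (Q f) ⌊(N : ℝ) ^ (1 / (r : ℝ))⌋₊) ^ j / j.factorial| ≤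
        ε * (((Ioc u (u + Y)).filter (fun n => (a * n + b).Prime ∧ Sf (Q f) ⌊(N : ℝ) ^ (1 / (r : ℝ))⌋₊ n)).card : ℕ) := by
  obtain ⟨r0, hr0, h⟩ := prime_full a k D ha E η θ δ hE hη hθ hδ hδ1 x0 ε hε hε1
  refine ⟨r0, hr0, ?_⟩
  intro r hr
  have hr2 : 2 ≤ r := hr0.trans hr
  obtain ⟨C, hC, hVz⟩ := Vz_up r hr2
  filter_upwards [h r hr (2 ^ a * C), hVz] with N hN hVN
  intro f b hf hab hnon hbase hb X hX u Y hY huY
  have hmain := hN f b hf hab hnon hbase (by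
    refine (V_base a (Nat.pos_of_ne_zero ha.ne_zero) (Q f) (base_nu f a b hbase) (us_adm hf) _).trans ?_
    rw [mul_div_assoc]
    exact mul_le_mul_of_nonneg_left hVN.2 (by positivity)) hb X hX u Y hY huY
  refine ⟨hmain.1, fun T hT B => ?_⟩
  have h3 := hmain.2 T hT B
  unfold Om at h3
  rw [Finset.filter_filter] at h3
  exact h3

/-- **Regular points for systems of polynomials one of which is linear, uniformly.** -/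
theorem her_base (a k D : ℕ) (ha : 0 < a) (E θ : ℝ) (hE : 0 < E) (hθ : 0 < θ) :
    ∃ r0 : ℕ, 2 ≤ r0 ∧ ∀ r : ℕ, r0 ≤ r → ∀ ε : ℝ, 0 < ε → ∃ c : ℝ, 0 < c ∧
      ∀ δ : ℝ, 0 < δ → ∃ B : ℕ, ∀ᶠ X : ℕ in atTop, ∀ (f : Fin k → ℤ[X]) (b : ℕ), US k D ((X : ℝ) ^ E) 0 f →
      (∃ i, ∀ n : ℕ, (f i).eval (n : ℤ) = a * n + b) →
      ∀ u Y : ℕ, (X : ℝ) ^ θ ≤ Y → Y ≤ X → Y ≤ u →
      ∀ S : Set ℕ, (∀ m ∈ S, Sf (Q f) ⌊(X : ℝ) ^ (1 / (r : ℝ))⌋₊ m) →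
        (cnt (Irregular S c (Vq (Q f) X) δ B Y) u (u + Y) : ℝ) ≤ ε * (Y * Vq (Q f) X) := by
  obtain ⟨r0, hr0, h⟩ := her_sys k D E θ hE hθ
  refine ⟨r0, hr0, ?_⟩
  intro r hr ε hε
  obtain ⟨c1, C1, hc1, hC1, hV⟩ := Vz_bounds
  obtain ⟨c, hc, h2⟩ := h r hr (2 ^ a * C1) (by positivity) ε hε
  refine ⟨c, hc, fun δ hδ => ?_⟩
  obtain ⟨B, h3⟩ := h2 δ hδ
  refine ⟨B, ?_⟩
  filter_upwards [h3, eventually_ge_atTop 3] with X hX hX3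
  intro f b hf hbase u Y hXY hYX hYu S hS
  refine hX f hf ?_ u Y hXY hYX hYu S hS
  refine (V_base a ha (Q f) (base_nu f a b hbase) (us_adm hf) _).trans ?_
  rw [mul_div_assoc]
  exact mul_le_mul_of_nonneg_left (hV X (by omega)).2 (by positivity)

end Pool.Agent.Q236.GW
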