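import Pool.Agent.Q236.GW.PairU
import Pool.Agent.Y879.PR.Full

set_option autoImplicit false

/-!
# Primes `m` with `d m + a` almost prime, uniformly in `a` and `d`: number and law of the next ones
-/

namespace Pool.Agent.Q236.GW

open Polynomial Finset Filter
open Pool.Agent.W123.RP Pool.Agent.H373R2.T7 Pool.Agent.W123.RU Pool.Agent.W123.RU.Poly
open Pool.Agent.TH464.PW Pool.Agent.TH464.PO Pool.Agent.Y879.AP Pool.Agent.Y879.GL Pool.Agent.Y879.PR

/-- the forms `m`, `d m + a` -/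
noncomputable def gl (a d : ℤ) : Fin 2 → ℤ[X] := lfs ![1, d] ![0, a]

lemma gl_Q (a d : ℤ) (p m : ℕ) (hp : p.Prime) : Q (gl a d) p m ↔ (p : ℤ) ∣ (m : ℤ) * (a + d * m) := by
  unfold gl
  rw [lfs_Q _ _ p m hp, Fin.prod_univ_two]
  simp only [Matrix.cons_val_zero, Matrix.cons_val_one]
  rw [one_mul, add_zero, add_comm (d * (m : ℤ)) a]

lemma gl_nu (a d : ℤ) (had : IsCoprime a d) (p : ℕ) (hp : p.Prime) :
    nuB (Q (gl a d)) p = if p ∣ (a * d).natAbs then 1 else 2 := by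
  classical
  have : Fact p.Prime := ⟨hp⟩
  have hpi : Prime (p : ℤ) := Nat.prime_iff_prime_int.1 hp
  have h0 : nuB (Q (gl a d)) p =
      ((range p).filter (fun r : ℕ => (p : ℤ) ∣ (r : ℤ) * (a + d * r))).card := by
    unfold nuB
    exact card_iff _ _ (fun r _ => gl_Q a d p r hp)
  rw [h0]
  have hz : ∀ x : ℤ, ((x : ℤ) : ZMod p) = 0 ↔ (p : ℤ) ∣ x := fun x => ZMod.intCast_zmod_eq_zero_iff_dvd x p
  have hr0 : ∀ r : ℕ, (p : ℤ) ∣ (r : ℤ) ↔ (r : ZMod p) = 0 := by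
    intro r
    rw [← hz r]
    push_cast
    rfl
  by_cases hd : (p : ℤ) ∣ d
  · have ha : ¬ (p : ℤ) ∣ a := fun ha => hpi.not_isUnit (had.isUnit_of_dvd' ha hd)
    rw [if_pos (by
      rw [← Int.natCast_dvd]
      exact hd.mul_left _)]
    have hset : (range p).filter (fun r : ℕ => (p : ℤ) ∣ (r : ℤ) * (a + d * r)) =
        (range p).filter (fun r : ℕ => (r : ZMod p) = 0) := by
      apply Finset.filter_congr
      intro r _
      rw [← hr0 r, hpi.dvd_mul]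
      constructor
      · rintro (h1 | h1)
        · exact h1
        · exfalso
          apply ha
          have h2 : a = (a + d * r) - d * r := by ring
          rw [h2]
          exact h1.sub (hd.mul_right _)
      · exact Or.inl
    rw [hset, card_root, Finset.card_singleton]
  · have hd0 : ((d : ℤ) : ZMod p) ≠ 0 := fun h1 => hd ((hz d).1 h1)
    have hset : (range p).filter (fun r : ℕ => (p : ℤ) ∣ (r : ℤ) * (a + d * r)) =
        (range p).filter (fun r : ℕ => (r : ZMod p) = 0) ∪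
        (range p).filter (fun r : ℕ => (r : ZMod p) = -(a : ZMod p) / (d : ZMod p)) := by
      rw [← Finset.filter_or]
      apply Finset.filter_congr
      intro r _
      rw [← root_iff p d a hd0 r, ← hr0 r, hpi.dvd_mul]
    rw [hset, card_root, card_root]
    by_cases ha : (p : ℤ) ∣ a
    · rw [if_pos (by
        rw [← Int.natCast_dvd]
        exact ha.mul_right _)]
      have h1 : -(a : ZMod p) / (d : ZMod p) = 0 := by
        rw [(hz a).2 ha, neg_zero, zero_div]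
      rw [h1, Finset.union_self, Finset.card_singleton]
    · rw [if_neg (by
        rw [← Int.natCast_dvd]
        intro h1
        rcases hpi.dvd_or_dvd h1 with h2 | h2
        · exact ha h2
        · exact hd h2)]
      have h1 : (0 : ZMod p).val ≠ (-(a : ZMod p) / (d : ZMod p)).val := by
        intro h2
        have h3 := ZMod.val_injective p h2
        have ha0 : ((a : ℤ) : ZMod p) ≠ 0 := fun h1 => ha ((hz a).1 h1)
        have h4 : -(a : ZMod p) / (d : ZMod p) ≠ 0 := div_ne_zero (neg_ne_zero.2 ha0) hd0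
        exact h4 h3.symm
      rw [← Finset.insert_eq, Finset.card_pair h1]

lemma gl_V (a d : ℤ) (had : IsCoprime a d) (y : ℕ) : Vq (Q (gl a d)) y = VG (a * d).natAbs y := by
  rw [VG_eq]
  unfold Vq
  have h1 : pz y = (Finset.Icc 1 y).filter Nat.Prime := by
    ext p
    rw [mem_pz, Finset.mem_filter, Finset.mem_Icc]
    exact ⟨fun h => ⟨⟨h.2.one_lt.le, h.1⟩, h.2⟩, fun h => ⟨h.1.2, h.2⟩⟩
  rw [h1]
  apply Finset.prod_congr rfl
  intro p hp
  rw [gl_nu a d had p (Finset.mem_filter.1 hp).2]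
  split_ifs <;> norm_num

lemma gl_adm (a d : ℤ) (had : IsCoprime a d) (hev : Even (a * d)) (p : ℕ) (hp : p.Prime) :
    nuB (Q (gl a d)) p < p := by
  rw [gl_nu a d had p hp]
  split_ifs with h1
  · exact hp.one_lt
  · rcases Nat.lt_or_ge 2 p with h3 | h3
    · exact h3
    · exfalso
      have h4 : p = 2 := by
        have := hp.two_le
        omega
      apply h1
      rw [h4]
      exact (Int.natAbs_even.2 hev).two_dvd

lemma gl_us (a d : ℤ) (hd : d ≠ 0) (had : IsCoprime a d) (hev : Even (a * d)) (H U : ℝ) (hH : 1 ≤ H)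
    (haH : |(a : ℝ)| ≤ H) (hdH : |(d : ℝ)| ≤ H) (hU : d = 1 ∨ d = -1 → U < |(a : ℝ)|) :
    US 2 1 H U (gl a d) := by
  apply us_lf 2 ![1, d] ![0, a] H U
  · intro i
    fin_cases i
    · exact one_ne_zero
    · exact hd
  · intro i
    fin_cases i
    · exact isCoprime_one_left
    · exact had.symm
  · intro i
    fin_cases i
    · show |((1 : ℤ) : ℝ)| ≤ H
      simpa using hH
    · exact hdH
  · intro i
    fin_cases i
    · show |((0 : ℤ) : ℝ)| ≤ H
      simp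
      linarith
    · exact haH
  · intro p hp
    obtain ⟨m, _, hm⟩ := nu_exists (Q (gl a d)) p (gl_adm a d had hev p hp)
    refine ⟨m, fun i hi => hm ⟨i, ?_⟩⟩
    unfold gl lfs
    rw [lf_eval]
    exact hi
  · intro i j t ht htU
    have ht' : (1 : ℤ) ≤ t := by exact_mod_cast ht
    have key : ∀ x : ℤ, (d = 1 ∨ d = -1) → |a| = x → x = t → False := by
      intro x h1 h2 h3
      have h4 := hU h1
      have h5 : |(a : ℝ)| = t := by
        have : ((|a| : ℤ) : ℝ) = ((t : ℤ) : ℝ) := by rw [h2, h3]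
        push_cast at this
        exact this
      linarith
    fin_cases i <;> fin_cases j
    · show ¬ ((1 : ℤ) = 1 ∧ (0 : ℤ) = 0 + 1 * (t : ℤ)) ∧ ¬ ((1 : ℤ) = -1 ∧ (0 : ℤ) = -(0 + 1 * (t : ℤ)))
      omega
    · show ¬ ((1 : ℤ) = d ∧ (0 : ℤ) = a + d * (t : ℤ)) ∧ ¬ ((1 : ℤ) = -d ∧ (0 : ℤ) = -(a + d * (t : ℤ)))
      constructor
      · rintro ⟨h1, h2⟩
        rw [← h1, one_mul] at h2
        have h3 : a = -t := by omega
        exact key t (Or.inl h1.symm) (by rw [h3, abs_neg]; exact abs_of_pos (by omega)) rfl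
      · rintro ⟨h1, h2⟩
        have h3 : d = -1 := by omega
        rw [h3] at h2
        have h4 : a = t := by linarith
        exact key t (Or.inr h3) (by rw [h4]; exact abs_of_pos (by omega)) rfl
    · show ¬ (d = 1 ∧ a = 0 + 1 * (t : ℤ)) ∧ ¬ (d = -1 ∧ a = -(0 + 1 * (t : ℤ)))
      constructor
      · rintro ⟨h1, h2⟩
        have h4 : a = t := by linarith
        exact key t (Or.inl h1) (by rw [h4]; exact abs_of_pos (by omega)) rfl
      · rintro ⟨h1, h2⟩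
        have h3 : a = -t := by linarith
        exact key t (Or.inr h1) (by rw [h3, abs_neg]; exact abs_of_pos (by omega)) rfl
    · show ¬ (d = d ∧ a = a + d * (t : ℤ)) ∧ ¬ (d = -d ∧ a = -(a + d * (t : ℤ)))
      constructor
      · rintro ⟨_, h2⟩
        have h3 : d * t = 0 := by linarith
        rcases mul_eq_zero.1 h3 with h4 | h4
        · exact hd h4
        · omega
      · rintro ⟨h1, _⟩
        omega

lemma gl_D (a d : ℤ) (A : ℝ) (X : ℕ) (hX : 1 ≤ X) (haX : |(a : ℝ)| ≤ (X : ℝ) ^ A) (hdX : |(d : ℝ)| ≤ (X : ℝ) ^ A) :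
    (((a * d).natAbs : ℕ) : ℝ) ≤ (X : ℝ) ^ (2 * A) := by
  have hX0 : (0 : ℝ) < X := by exact_mod_cast hX
  have hA0 : 0 < (X : ℝ) ^ A := Real.rpow_pos_of_pos hX0 _
  have e1 : (((a * d).natAbs : ℕ) : ℝ) = |(a : ℝ) * d| := by
    rw [Nat.cast_natAbs]
    push_cast
    rfl
  rw [e1, abs_mul]
  calc |(a : ℝ)| * |(d : ℝ)| ≤ (X : ℝ) ^ A * (X : ℝ) ^ A := by gcongr
    _ = (X : ℝ) ^ (2 * A) := by
      rw [← Real.rpow_add hX0]
      congr 1
      ring

open Classical in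
/-- **Primes `m` with `d m + a` almost prime, uniformly in `a` and `d`.** -/
theorem prime_gl (A η θ δ : ℝ) (hA : 0 < A) (hη : 0 < η) (hθ : 0 < θ) (hδ : 0 < δ) (hδ1 : δ ≤ 1)
    (x0 ε : ℝ) (hε : 0 < ε) (hε1 : ε ≤ 1) :
    ∃ r0 : ℕ, 2 ≤ r0 ∧ ∀ r : ℕ, r0 ≤ r → ∀ᶠ N : ℕ in atTop, ∀ a d : ℤ, a ≠ 0 → d ≠ 0 → IsCoprime a d →
      Even (a * d) → |(a : ℝ)| ≤ (N : ℝ) ^ A → |(d : ℝ)| ≤ (N : ℝ) ^ A →
      (d = 1 ∨ d = -1 → (N : ℝ) ^ η < |(a : ℝ)|) →
      ∀ X : ℕ, (N : ℝ) ^ θ ≤ X → ∀ u Y : ℕ, δ * X ≤ Y → u + Y ≤ X →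
      |((((Ioc u (u + Y)).filter (fun n => n.Prime ∧ Sf (Q (gl a d)) ⌊(N : ℝ) ^ (1 / (r : ℝ))⌋₊ n)).card : ℕ) : ℝ) *
          Real.log X - Y * (VG (a * d).natAbs ⌊(N : ℝ) ^ (1 / (r : ℝ))⌋₊ / Vz ⌊(N : ℝ) ^ (1 / (r : ℝ))⌋₊)| ≤
        ε * (Y * (VG (a * d).natAbs ⌊(N : ℝ) ^ (1 / (r : ℝ))⌋₊ / Vz ⌊(N : ℝ) ^ (1 / (r : ℝ))⌋₊)) ∧
      ∀ T : ℕ, T * VG (a * d).natAbs ⌊(N : ℝ) ^ (1 / (r : ℝ))⌋₊ ≤ x0 → ∀ B : Finset ℕ,
      |((((Ioc u (u + Y)).filter (fun n => (n.Prime ∧ Sf (Q (gl a d)) ⌊(N : ℝ) ^ (1 / (r : ℝ))⌋₊ n) ∧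
          Wc (Sf (Q (gl a d)) ⌊(N : ℝ) ^ (1 / (r : ℝ))⌋₊) n T ∈ B)).card : ℕ) : ℝ) -
        (((Ioc u (u + Y)).filter (fun n => n.Prime ∧ Sf (Q (gl a d)) ⌊(N : ℝ) ^ (1 / (r : ℝ))⌋₊ n)).card : ℕ) *
          ∑ j ∈ B, Real.exp (-(T * VG (a * d).natAbs ⌊(N : ℝ) ^ (1 / (r : ℝ))⌋₊)) *
            (T * VG (a * d).natAbs ⌊(N : ℝ) ^ (1 / (r : ℝ))⌋₊) ^ j / j.factorial| ≤
        ε * (((Ioc u (u + Y)).filter (fun n => n.Prime ∧ Sf (Q (gl a d)) ⌊(N : ℝ) ^ (1 / (r : ℝ))⌋₊ n)).card : ℕ) := by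
  obtain ⟨r0, hr0, h⟩ := prime_full 1 2 1 squarefree_one A η θ δ hA hη hθ hδ hδ1 x0 ε hε hε1
  refine ⟨r0, hr0, ?_⟩
  intro r hr
  have hr2 : 2 ≤ r := hr0.trans hr
  obtain ⟨M, hM, hVup⟩ := V2_up (2 * A) (by positivity) r hr2
  filter_upwards [h r hr M, hVup, eventually_ge_atTop 3] with N hN hVN hN3
  intro a d ha hd had hev haN hdN hU X hX u Y hY huY
  have hN2r : (3 : ℝ) ≤ N := by exact_mod_cast hN3
  have hN0 : (0 : ℝ) < N := by linarith
  have hN1 : (1 : ℝ) ≤ N := by linarith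
  have hD1 : 1 ≤ (a * d).natAbs := Int.natAbs_pos.2 (mul_ne_zero ha hd)
  have hus := gl_us a d hd had hev ((N : ℝ) ^ A) ((N : ℝ) ^ η) (Real.one_le_rpow hN1 hA.le) haN hdN hU
  have hmain := hN (gl a d) 0 hus (Nat.coprime_one_left 0) (by
      intro p n hp h1
      exact absurd (Nat.dvd_one.1 h1) hp.one_lt.ne') ⟨0, fun n => by
        unfold gl lfs
        rw [lf_eval]
        simp⟩ (hVN (Q (gl a d)) (a * d).natAbs (gl_adm a d had hev) hD1
          (gl_D a d A N (by omega) haN hdN) (by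
            intro p hp hpD
            rw [gl_nu a d had p hp, if_neg hpD])) (by
        push_cast
        exact Real.rpow_nonneg hN0.le _) X hX u Y hY huY
  rw [gl_V a d had] at hmain
  have e1 : Om 1 0 (Q (gl a d)) ⌊(N : ℝ) ^ (1 / (r : ℝ))⌋₊ u Y =
      (Ioc u (u + Y)).filter (fun n => n.Prime ∧ Sf (Q (gl a d)) ⌊(N : ℝ) ^ (1 / (r : ℝ))⌋₊ n) := by
    unfold Om
    apply Finset.filter_congr
    intro n _
    rw [one_mul, add_zero]
  rw [e1] at hmain
  refine ⟨hmain.1, fun T hT B => ?_⟩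
  have h3 := hmain.2 T hT B
  rw [Finset.filter_filter] at h3
  exact h3

end Pool.Agent.Q236.GW
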