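import Pool.Agent.Q236.GW.Sing

set_option autoImplicit false

/-!
# Regular points of a set of integers, for a given density
-/

namespace Pool.Agent.Q236.GW

open Finset Filter
open Pool.Agent.W123.RP Pool.Agent.H373R2.T7 Pool.Agent.W123.RU Pool.Agent.TH464.PO Pool.Agent.TH464.PW
open Pool.Agent.Y879.AP Pool.Agent.Y879.GL

open Classical in
/-- The number of the elements of `A` in `(a, b]`. -/
noncomputable def cnt (A : Set ℕ) (a b : ℕ) : ℕ := ((Finset.Ioc a b).filter (fun m => m ∈ A)).card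

/-- The intervals `(m - s, m + t]` with `s, t ≤ Y` of length at least `1 / (c d)` contain the right order
of elements of `A`, for the density `d`. -/
def RightOrder (A : Set ℕ) (c d : ℝ) (Y m : ℕ) : Prop :=
  ∀ s t : ℕ, s ≤ Y → t ≤ Y → 1 ≤ c * (d * (s + t)) →
    c * (d * (s + t)) ≤ cnt A (m - s) (m + t) ∧ (cnt A (m - s) (m + t) : ℝ) ≤ d * (s + t) / c

/-- Up to `δ`, `A` has a constant density on both sides of `m` up to the distance `2 ^ j`. -/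
def ConstantDensity (A : Set ℕ) (c d δ : ℝ) (m j : ℕ) : Prop :=
  ∃ lam : ℝ, c ≤ lam ∧ lam ≤ 1 / c ∧ ∀ s t : ℕ, s ≤ 2 ^ j → t ≤ 2 ^ j →
    |(cnt A (m - s) (m + t) : ℝ) - lam * (d * (s + t))| ≤ δ * (d * 2 ^ j)

open Classical in
/-- The number of the scales `1 / (c d) ≤ 2 ^ j ≤ Y` without this property. -/
noncomputable def badScales (A : Set ℕ) (c d δ : ℝ) (Y m : ℕ) : ℕ :=
  ((Finset.range (Nat.log 2 Y + 1)).filter (fun j => 1 ≤ c * (d * (2 : ℝ) ^ j) ∧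
    ¬ ConstantDensity A c d δ m j)).card

/-- The elements of `A` that are not regular points of `A`. -/
def Irregular (A : Set ℕ) (c d δ : ℝ) (B Y : ℕ) : Set ℕ :=
  {m | m ∈ A ∧ ¬ (RightOrder A c d Y m ∧ badScales A c d δ Y m ≤ B)}

lemma RO_of (A : Set ℕ) (V c₀ c₁ c₂ c d : ℝ) (hV : 0 < V) (hc₀ : 0 < c₀) (hc₂ : 0 < c₂)
    (hd : 0 < d) (h1 : c₁ * d ≤ V) (h2 : V ≤ c₂ * d) (hc : 0 < c) (hc1 : c ≤ c₀ * c₁) (hc2 : c ≤ c₀ / c₂)
    (Y m : ℕ) (h : RO A (1 / V) c₀ Y m) : RightOrder A c d Y m := by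
  intro s t hs ht hst
  have hst0 : (0 : ℝ) ≤ s + t := by positivity
  have e1 : c * (d * (s + t)) ≤ c₀ * (s + t) / (1 / V) := by
    rw [div_div_eq_mul_div, div_one]
    have h3 : c * d ≤ c₀ * V := by
      calc c * d ≤ c₀ * c₁ * d := mul_le_mul_of_nonneg_right hc1 hd.le
        _ = c₀ * (c₁ * d) := by ring
        _ ≤ c₀ * V := mul_le_mul_of_nonneg_left h1 hc₀.le
    calc c * (d * (s + t)) = c * d * (s + t) := by ring
      _ ≤ c₀ * V * (s + t) := mul_le_mul_of_nonneg_right h3 hst0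
      _ = c₀ * (s + t) * V := by ring
  have e2 : (s + t : ℝ) / (c₀ * (1 / V)) ≤ d * (s + t) / c := by
    rw [mul_one_div, div_div_eq_mul_div, div_le_div_iff₀ hc₀ hc]
    have h3 : V * c ≤ d * c₀ := by
      rw [le_div_iff₀ hc₂] at hc2
      calc V * c ≤ c₂ * d * c := mul_le_mul_of_nonneg_right h2 hc.le
        _ = c * c₂ * d := by ring
        _ ≤ c₀ * d := mul_le_mul_of_nonneg_right hc2 hd.le
        _ = d * c₀ := by ring
    nlinarith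
  have e3 : 1 / V ≤ c₀ * (s + t) := by
    have h4 := hst.trans e1
    rw [div_div_eq_mul_div, div_one] at h4
    rw [div_le_iff₀ hV]
    exact h4
  obtain ⟨h5, h6⟩ := h s t hs ht e3
  exact ⟨e1.trans h5, h6.trans e2⟩

lemma CD_of (A : Set ℕ) (V c₀ c₁ c₂ c d δ δ₀ : ℝ) (hV : 0 < V) (hc₀ : 0 < c₀)
    (hc₂ : 0 < c₂) (hd : 0 < d) (h1 : c₁ * d ≤ V) (h2 : V ≤ c₂ * d) (hc : 0 < c) (hc1 : c ≤ c₀ * c₁)
    (hc2 : c ≤ c₀ / c₂) (hδ₀ : 0 < δ₀) (hδ : δ₀ * c₂ ≤ δ) (m j : ℕ) (h : CD A (1 / V) c₀ δ₀ m j) :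
    ConstantDensity A c d δ m j := by
  obtain ⟨lam, hl1, hl2, h3⟩ := h
  have hlam : 0 < lam := hc₀.trans_le hl1
  refine ⟨lam * V / d, ?_, ?_, ?_⟩
  · rw [le_div_iff₀ hd]
    calc c * d ≤ c₀ * c₁ * d := mul_le_mul_of_nonneg_right hc1 hd.le
      _ = c₀ * (c₁ * d) := by ring
      _ ≤ c₀ * V := mul_le_mul_of_nonneg_left h1 hc₀.le
      _ ≤ lam * V := mul_le_mul_of_nonneg_right hl1 hV.le
  · rw [div_le_div_iff₀ hd hc, one_mul]
    rw [le_div_iff₀ hc₂] at hc2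
    calc lam * V * c ≤ 1 / c₀ * (c₂ * d) * c := by
          apply mul_le_mul_of_nonneg_right _ hc.le
          exact mul_le_mul hl2 h2 hV.le (by positivity)
      _ = c * c₂ * d / c₀ := by ring
      _ ≤ c₀ * d / c₀ := by
          apply div_le_div_of_nonneg_right _ hc₀.le
          exact mul_le_mul_of_nonneg_right hc2 hd.le
      _ = d := by rw [mul_comm, mul_div_assoc, div_self hc₀.ne', mul_one]
  · intro s t hs ht
    have h4 := h3 s t hs ht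
    rw [div_div_eq_mul_div, div_one, div_div_eq_mul_div, div_one] at h4
    have e1 : lam * V / d * (d * (s + t)) = lam * (s + t) * V := by
      field_simp
    rw [e1]
    refine h4.trans ?_
    calc δ₀ * 2 ^ j * V ≤ δ₀ * 2 ^ j * (c₂ * d) := mul_le_mul_of_nonneg_left h2 (by positivity)
      _ = δ₀ * c₂ * (d * 2 ^ j) := by ring
      _ ≤ δ * (d * 2 ^ j) := mul_le_mul_of_nonneg_right hδ (by positivity)

/-- **Change of the density.** -/
theorem transfer (c₀ c₁ c₂ : ℝ) (hc₀ : 0 < c₀) (hc₁ : 0 < c₁) (hc₂ : 0 < c₂) : ∃ c : ℝ, 0 < c ∧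
    ∀ (A : Set ℕ) (V d δ : ℝ), 0 < d → c₁ * d ≤ V → V ≤ c₂ * d → 0 < δ → ∀ B Y u v : ℕ,
      cnt (Irregular A c d δ B Y) u v ≤
        Pool.Agent.TH977.PW.N (Irr A (1 / V) c₀ (δ / c₂) B Y) u v := by
  obtain ⟨c, hc⟩ : ∃ c, c = min (c₀ * c₁) (min (c₀ / c₂) c₁) := ⟨_, rfl⟩
  have hcpos : 0 < c := by
    rw [hc]
    exact lt_min (by positivity) (lt_min (by positivity) hc₁)
  have hc1 : c ≤ c₀ * c₁ := by rw [hc]; exact min_le_left _ _
  have hc2 : c ≤ c₀ / c₂ := by rw [hc]; exact (min_le_right _ _).trans (min_le_left _ _)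
  have hc3 : c ≤ c₁ := by rw [hc]; exact (min_le_right _ _).trans (min_le_right _ _)
  refine ⟨c, hcpos, ?_⟩
  intro A V d δ hd hV1 hV2 hδ B Y u v
  have hV0 : 0 < V := lt_of_lt_of_le (by positivity) hV1
  apply Pool.Agent.TH977.PW.N_mono
  intro m _ _ hm
  refine ⟨hm.1, fun hreg => hm.2 ⟨?_, ?_⟩⟩
  · exact RO_of A V c₀ c₁ c₂ c d hV0 hc₀ hc₂ hd hV1 hV2 hcpos hc1 hc2 Y m hreg.1
  · refine le_trans ?_ hreg.2
    unfold badScales bS
    apply card_le_of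
    intro j _ hj
    refine ⟨?_, fun hcd => hj.2 ?_⟩
    · rw [div_le_iff₀ hV0]
      calc (1 : ℝ) ≤ c * (d * 2 ^ j) := hj.1
        _ ≤ c₁ * (d * 2 ^ j) := mul_le_mul_of_nonneg_right hc3 (by positivity)
        _ = 2 ^ j * (c₁ * d) := by ring
        _ ≤ 2 ^ j * V := mul_le_mul_of_nonneg_left hV1 (by positivity)
    · exact CD_of A V c₀ c₁ c₂ c d δ (δ / c₂) hV0 hc₀ hc₂ hd hV1 hV2 hcpos hc1 hc2
        (by positivity) (by rw [div_mul_cancel₀ _ hc₂.ne']) m j hcd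

/-! ### The densities, uniformly in `D ≤ X ^ A` -/

lemma large_U (A : ℝ) (r : ℕ) (hr : 2 ≤ r) (δ : ℝ) (hδ : 0 < δ) : ∀ᶠ X : ℕ in atTop,
    ∀ D : ℕ, 1 ≤ D → (D : ℝ) ≤ (X : ℝ) ^ A →
    1 - δ ≤ ∏ p ∈ D.primeFactors.filter (fun p => ⌊(X : ℝ) ^ (1 / (r : ℝ))⌋₊ < p), (1 - 1 / (p : ℝ)) ∧
    ∏ p ∈ D.primeFactors.filter (fun p => ⌊(X : ℝ) ^ (1 / (r : ℝ))⌋₊ < p), (1 - 1 / (p : ℝ)) ≤ 1 := by
  have hrr : (2 : ℝ) ≤ r := by exact_mod_cast hr
  obtain ⟨A', hA'⟩ : ∃ A' : ℝ, A' = max A 1 := ⟨_, rfl⟩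
  have hA1 : 1 ≤ A' := by rw [hA']; exact le_max_right _ _
  have hAA : A ≤ A' := by rw [hA']; exact le_max_left _ _
  filter_upwards [level_ok r hr, logpow_rpow 1 (2 * A' / δ) (1 / (r : ℝ)) (by positivity)
    (by positivity), eventually_ge_atTop 1] with X h1 h2 h3
  obtain ⟨g1, g2, g3, g4, g5⟩ := h1
  obtain ⟨y, hy⟩ : ∃ y, y = ⌊(X : ℝ) ^ (1 / (r : ℝ))⌋₊ := ⟨_, rfl⟩
  rw [← hy] at g1 g2 g3 g4 ⊢
  intro D hD hDX
  have hX1 : (1 : ℝ) ≤ X := by exact_mod_cast h3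
  have hlD : Real.log D ≤ A' * Real.log X := by
    have hD0 : (0 : ℝ) < D := by exact_mod_cast hD
    calc Real.log D ≤ Real.log ((X : ℝ) ^ A) := Real.log_le_log hD0 hDX
      _ = A * Real.log X := Real.log_rpow (by linarith) A
      _ ≤ A' * Real.log X := mul_le_mul_of_nonneg_right hAA (Real.log_nonneg hX1)
  constructor
  · refine le_trans ?_ (prod_large D y hD (by omega) _ (by
      intro p hp
      rw [Finset.mem_filter, Nat.mem_primeFactors] at hp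
      exact ⟨hp.1.1, hp.2, hp.1.2.1⟩))
    have hy0 : (0 : ℝ) < y := by exact_mod_cast (by omega : 0 < y)
    have hyq : (X : ℝ) ^ (1 / (r : ℝ)) < y + 1 := by rw [hy]; exact Nat.lt_floor_add_one _
    have hy1 : (1 : ℝ) ≤ y := by exact_mod_cast (by omega : 1 ≤ y)
    have h4 : 2 * A' / δ * Real.log X ≤ 2 * y := by
      rw [pow_one] at h2
      linarith
    have h5 : Real.log D / (y * Real.log y) ≤ δ := by
      rw [div_le_iff₀ (by positivity)]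
      have h6 : A' * Real.log X ≤ δ * y := by
        rw [div_mul_eq_mul_div, div_le_iff₀ hδ] at h4
        linarith
      have h7 : δ * y * 1 ≤ δ * y * Real.log y := mul_le_mul_of_nonneg_left g4 (by positivity)
      linarith
    linarith
  · apply Finset.prod_le_one
    · intro p hp
      rw [Finset.mem_filter, Nat.mem_primeFactors] at hp
      have : (1 : ℝ) ≤ p := by exact_mod_cast hp.1.1.one_lt.le
      rw [sub_nonneg, div_le_one (by linarith)]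
      exact this
    · intro p hp
      have : 0 ≤ 1 / (p : ℝ) := by positivity
      linarith

/-- **The density is the singular series times the density of the sieve, uniformly.** -/
theorem VG_asymU (A : ℝ) (r : ℕ) (hr : 2 ≤ r) (δ : ℝ) (hδ : 0 < δ) : ∀ᶠ X : ℕ in atTop,
    ∀ D : ℕ, Even D → 1 ≤ D → (D : ℝ) ≤ (X : ℝ) ^ A →
    |VG D ⌊(X : ℝ) ^ (1 / (r : ℝ))⌋₊ * Real.log X ^ 2 -
      (r * Real.exp (-Real.eulerMascheroniConstant)) ^ 2 * SG D| ≤ δ * SG D := by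
  obtain ⟨κ, hκ⟩ : ∃ κ : ℝ, κ = r * Real.exp (-Real.eulerMascheroniConstant) := ⟨_, rfl⟩
  have hr0 : (0 : ℝ) < r := by exact_mod_cast (by omega : 0 < r)
  have hκ0 : 0 < κ := by rw [hκ]; positivity
  have hz := Vz_asym r hr
  rw [← hκ] at hz ⊢
  have hpowr : Tendsto (fun q : ℕ => (q : ℝ) ^ (1 / (r : ℝ))) atTop atTop :=
    (tendsto_rpow_atTop (by positivity)).comp tendsto_natCast_atTop_atTop
  have hfl : Tendsto (fun q : ℕ => ⌊(q : ℝ) ^ (1 / (r : ℝ))⌋₊) atTop atTop :=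
    tendsto_nat_floor_atTop.comp hpowr
  have hC := Cz_tendsto.comp hfl
  have hC2 := C2_low
  have hC20 : C2 ≠ 0 := by linarith
  have hratio : Tendsto (fun n : ℕ => (Vz ⌊(n : ℝ) ^ (1 / (r : ℝ))⌋₊ * Real.log n) ^ 2 *
      (Cz ⌊(n : ℝ) ^ (1 / (r : ℝ))⌋₊ / C2)) atTop (nhds (κ ^ 2)) := by
    have h1 := (hz.pow 2).mul (hC.div_const C2)
    rw [div_self hC20, mul_one] at h1
    exact h1
  obtain ⟨δ', hδ'⟩ : ∃ δ' : ℝ, δ' = min (1 / 2) (δ / (8 * (κ ^ 2 + 1))) := ⟨_, rfl⟩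
  have hδ'0 : 0 < δ' := by rw [hδ']; exact lt_min (by norm_num) (by positivity)
  have hδ'1 : δ' ≤ 1 / 2 := by rw [hδ']; exact min_le_left _ _
  have hδ'2 : δ' * (8 * (κ ^ 2 + 1)) ≤ δ := by
    have : δ' ≤ δ / (8 * (κ ^ 2 + 1)) := by rw [hδ']; exact min_le_right _ _
    rwa [le_div_iff₀ (by positivity)] at this
  have hm0 : 0 < min (δ / 2) 1 := lt_min (by positivity) one_pos
  filter_upwards [hratio.eventually (Metric.ball_mem_nhds (κ ^ 2) hm0),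
    large_U A r hr δ' hδ'0, hfl.eventually_ge_atTop 2, eventually_ge_atTop 3] with X h1 h2' h3 hn3
  intro D hn hD1 hDX
  have h2 := h2' D hD1 hDX
  obtain ⟨y, hy⟩ : ∃ y, y = ⌊(X : ℝ) ^ (1 / (r : ℝ))⌋₊ := ⟨_, rfl⟩
  rw [← hy] at h1 h2 h3 ⊢
  rw [VG_formula D y hn (by omega) h3, SG_formula D y h3]
  obtain ⟨hL1, hL2⟩ := large_bound D y h3
  obtain ⟨P, hP⟩ : ∃ P : ℝ, P = ∏ p ∈ D.primeFactors.filter (fun p => y < p), (1 - 1 / (p : ℝ)) := ⟨_, rfl⟩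
  obtain ⟨M, hM⟩ : ∃ M : ℝ, M = ∏ p ∈ D.primeFactors.filter (fun p => 2 < p ∧ p ≤ y),
    ((p : ℝ) - 1) / ((p : ℝ) - 2) := ⟨_, rfl⟩
  obtain ⟨L, hL⟩ : ∃ L : ℝ, L = ∏ p ∈ D.primeFactors.filter (fun p => y < p),
    ((p : ℝ) - 1) / ((p : ℝ) - 2) := ⟨_, rfl⟩
  rw [← hP, ← hL] at hL1
  rw [← hL] at hL2
  rw [← hP] at h2
  rw [← hM, ← hL]
  have hM0 : 0 ≤ M := by
    rw [hM]
    apply prod_nonneg
    intro p hp
    have := (Finset.mem_filter.1 hp).2.1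
    have h3 : (3 : ℝ) ≤ p := by exact_mod_cast (by omega : 3 ≤ p)
    exact div_nonneg (by linarith) (by linarith)
  obtain ⟨a, ha⟩ : ∃ a : ℝ, a = (Vz y * Real.log X) ^ 2 * (Cz y / C2) := ⟨_, rfl⟩
  rw [← ha, Real.dist_eq] at h1
  have h1' : |a - κ ^ 2| ≤ δ / 2 := h1.le.trans (min_le_left _ _)
  have hL3 : L - 1 ≤ 2 * δ' * L := by
    have h4 : (1 - δ') ^ 2 ≤ P ^ 2 := pow_le_pow_left₀ (by linarith) h2.1 2
    have h5 : (1 - δ') ^ 2 * L ≤ 1 := (mul_le_mul_of_nonneg_right h4 (by linarith)).trans hL1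
    nlinarith [sq_nonneg δ']
  have e1 : 2 * Vz y ^ 2 * Cz y * M * Real.log X ^ 2 = 2 * C2 * M * a := by
    rw [ha]
    field_simp
  have e2 : 2 * C2 * M * a - κ ^ 2 * (2 * C2 * M * L) = 2 * C2 * M * ((a - κ ^ 2) - κ ^ 2 * (L - 1)) := by
    ring
  have hCM : 0 ≤ 2 * C2 * M := by
    have : 0 ≤ C2 := by linarith
    positivity
  rw [e1, e2, abs_mul, abs_of_nonneg hCM]
  have h6 : |(a - κ ^ 2) - κ ^ 2 * (L - 1)| ≤ δ * L := by
    have h7 : |(a - κ ^ 2) - κ ^ 2 * (L - 1)| ≤ |a - κ ^ 2| + |κ ^ 2 * (L - 1)| := abs_sub _ _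
    have h8 : |κ ^ 2 * (L - 1)| = κ ^ 2 * (L - 1) := abs_of_nonneg (by
      apply mul_nonneg (by positivity) (by linarith))
    have h9 : κ ^ 2 * (L - 1) ≤ κ ^ 2 * (2 * δ' * L) := mul_le_mul_of_nonneg_left hL3 (by positivity)
    have h10 : κ ^ 2 * (2 * δ' * L) ≤ δ / 4 * L := by
      have h11 : κ ^ 2 * δ' * 8 ≤ δ := by nlinarith
      nlinarith
    have h12 : δ / 2 ≤ δ / 2 * L := by nlinarith
    linarith [mul_nonneg hδ.le (by linarith : (0 : ℝ) ≤ L)]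
  calc 2 * C2 * M * |(a - κ ^ 2) - κ ^ 2 * (L - 1)| ≤ 2 * C2 * M * (δ * L) :=
        mul_le_mul_of_nonneg_left h6 hCM
    _ = δ * (2 * C2 * M * L) := by ring

lemma SG_pos (D : ℕ) : 0 < SG D := by
  unfold SG
  have := C2_low
  apply mul_pos (by linarith)
  apply prod_pos
  intro p hp
  have := (Finset.mem_filter.1 hp).2
  have h3 : (3 : ℝ) ≤ p := by exact_mod_cast (by omega : 3 ≤ p)
  exact div_pos (by linarith) (by linarith)

/-- the order of magnitude of the density -/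
theorem VG_orderU (A : ℝ) (r : ℕ) (hr : 2 ≤ r) : ∃ c₁ c₂ : ℝ, 0 < c₁ ∧ 0 < c₂ ∧ ∀ᶠ X : ℕ in atTop,
    ∀ D : ℕ, Even D → 1 ≤ D → (D : ℝ) ≤ (X : ℝ) ^ A →
    c₁ * (SG D / Real.log X ^ 2) ≤ VG D ⌊(X : ℝ) ^ (1 / (r : ℝ))⌋₊ ∧
      VG D ⌊(X : ℝ) ^ (1 / (r : ℝ))⌋₊ ≤ c₂ * (SG D / Real.log X ^ 2) := by
  obtain ⟨κ, hκ⟩ : ∃ κ : ℝ, κ = r * Real.exp (-Real.eulerMascheroniConstant) := ⟨_, rfl⟩
  have hr0 : (0 : ℝ) < r := by exact_mod_cast (by omega : 0 < r)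
  have hκ0 : 0 < κ := by rw [hκ]; positivity
  refine ⟨κ ^ 2 / 2, 2 * κ ^ 2, by positivity, by positivity, ?_⟩
  filter_upwards [VG_asymU A r hr (κ ^ 2 / 2) (by positivity), eventually_ge_atTop 3] with X hX hX3
  intro D hD hD1 hDX
  have h := hX D hD hD1 hDX
  rw [← hκ] at h
  have hS := SG_pos D
  have hL : 0 < Real.log X := Real.log_pos (by exact_mod_cast (by omega : 1 < X))
  have hL2 : 0 < Real.log X ^ 2 := by positivity
  obtain ⟨h1, h2⟩ := abs_le.1 h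
  constructor
  · rw [mul_div_assoc', div_le_iff₀ hL2]
    linarith
  · rw [mul_div_assoc', le_div_iff₀ hL2]
    have : 0 < κ ^ 2 * SG D := by positivity
    linarith

end Pool.Agent.Q236.GW
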