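import Pool.Agent.Q236.GW.RegPrime
import Pool.Agent.Q236.GW.PrimeU

set_option autoImplicit false

/-!
# Change of the density; pairs `m`, `d m + a` with `m` prime
-/

namespace Pool.Agent.Q236.GW

open Polynomial Finset Filter
open Pool.Agent.W123.RP Pool.Agent.H373R2.T7 Pool.Agent.W123.RU Pool.Agent.W123.RU.Poly
open Pool.Agent.TH464.PW Pool.Agent.TH464.PO Pool.Agent.Y879.AP Pool.Agent.Y879.GL Pool.Agent.Y879.PR

/-- **Change of the density.** -/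
theorem transfer2 (c c₁ c₂ : ℝ) (hc : 0 < c) (hc₁ : 0 < c₁) (hc₂ : 0 < c₂) : ∃ c' : ℝ, 0 < c' ∧
    ∀ (A : Set ℕ) (V d δ : ℝ), 0 < d → c₁ * d ≤ V → V ≤ c₂ * d → 0 < δ → ∀ B Y u v : ℕ,
      cnt (Irregular A c' d δ B Y) u v ≤ cnt (Irregular A c V (δ / c₂) B Y) u v := by
  obtain ⟨c', hc'⟩ : ∃ c', c' = min (c * c₁) (c / c₂) := ⟨_, rfl⟩
  have hcpos : 0 < c' := by
    rw [hc']
    exact lt_min (by positivity) (by positivity)
  have h1 : c' ≤ c * c₁ := by rw [hc']; exact min_le_left _ _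
  have h2 : c' ≤ c / c₂ := by rw [hc']; exact min_le_right _ _
  have h2' : c' * c₂ ≤ c := by rwa [le_div_iff₀ hc₂] at h2
  refine ⟨c', hcpos, ?_⟩
  intro A V d δ hd hV1 hV2 hδ B Y u v
  have hV0 : 0 < V := lt_of_lt_of_le (by positivity) hV1
  have key : c' * d ≤ c * V := by
    calc c' * d ≤ c * c₁ * d := mul_le_mul_of_nonneg_right h1 hd.le
      _ = c * (c₁ * d) := by ring
      _ ≤ c * V := mul_le_mul_of_nonneg_left hV1 hc.le
  have key2 : V * c' ≤ d * c := by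
    calc V * c' ≤ c₂ * d * c' := mul_le_mul_of_nonneg_right hV2 hcpos.le
      _ = d * (c' * c₂) := by ring
      _ ≤ d * c := mul_le_mul_of_nonneg_left h2' hd.le
  apply Pool.Agent.TH977.PW.N_mono
  intro m _ _ hm
  refine ⟨hm.1, fun hreg => hm.2 ⟨?_, ?_⟩⟩
  · intro s t hs ht hst
    have hst0 : (0 : ℝ) ≤ s + t := by positivity
    have e1 : c' * (d * (s + t)) ≤ c * (V * (s + t)) := by
      calc c' * (d * (s + t)) = c' * d * (s + t) := by ring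
        _ ≤ c * V * (s + t) := mul_le_mul_of_nonneg_right key hst0
        _ = c * (V * (s + t)) := by ring
    obtain ⟨h3, h4⟩ := hreg.1 s t hs ht (hst.trans e1)
    refine ⟨e1.trans h3, h4.trans ?_⟩
    rw [div_le_div_iff₀ hc hcpos]
    nlinarith
  · refine le_trans ?_ hreg.2
    unfold badScales
    apply card_le_of
    intro j _ hj
    refine ⟨?_, fun hcd => hj.2 ?_⟩
    · calc (1 : ℝ) ≤ c' * (d * 2 ^ j) := hj.1
        _ = c' * d * 2 ^ j := by ring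
        _ ≤ c * V * 2 ^ j := mul_le_mul_of_nonneg_right key (by positivity)
        _ = c * (V * 2 ^ j) := by ring
    · obtain ⟨lam, hl1, hl2, h3⟩ := hcd
      have hlam : 0 < lam := hc.trans_le hl1
      refine ⟨lam * V / d, ?_, ?_, ?_⟩
      · rw [le_div_iff₀ hd]
        exact key.trans (mul_le_mul_of_nonneg_right hl1 hV0.le)
      · rw [div_le_div_iff₀ hd hcpos, one_mul]
        have h4 : lam * c ≤ 1 := by rwa [le_div_iff₀ hc] at hl2
        calc lam * V * c' = lam * (V * c') := by ring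
          _ ≤ lam * (d * c) := mul_le_mul_of_nonneg_left key2 hlam.le
          _ = lam * c * d := by ring
          _ ≤ 1 * d := mul_le_mul_of_nonneg_right h4 hd.le
          _ = d := one_mul d
      · intro s t hs ht
        have h4 := h3 s t hs ht
        have e1 : lam * V / d * (d * (s + t)) = lam * (V * (s + t)) := by
          field_simp
        rw [e1]
        refine h4.trans ?_
        calc δ / c₂ * (V * 2 ^ j) ≤ δ / c₂ * (c₂ * d * 2 ^ j) := by gcongr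
          _ = δ * (d * 2 ^ j) := by field_simp

/-- the density at the level `X` -/
lemma VGX_order (A : ℝ) : ∃ c₁ c₂ : ℝ, 0 < c₁ ∧ 0 < c₂ ∧ ∀ᶠ X : ℕ in atTop,
    ∀ a d : ℤ, IsCoprime a d → Even (a * d) → a ≠ 0 → d ≠ 0 → |(a : ℝ)| ≤ (X : ℝ) ^ A → |(d : ℝ)| ≤ (X : ℝ) ^ A →
      c₁ * (SG (a * d).natAbs / Real.log X ^ 2) ≤ Vq (Q (gl a d)) X ∧
      Vq (Q (gl a d)) X ≤ c₂ * (SG (a * d).natAbs / Real.log X ^ 2) := by
  obtain ⟨c₁, c₂, hc₁, hc₂, hord⟩ := VG_orderU (2 * A) 2 le_rfl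
  obtain ⟨C, hC, hlev⟩ := Vq_level 3 2 le_rfl
  refine ⟨c₁ / C, c₂, by positivity, hc₂, ?_⟩
  filter_upwards [hord, hlev, eventually_ge_atTop 1] with X h1 h2 h3
  intro a d had hev ha hd haX hdX
  have hD1 : 1 ≤ (a * d).natAbs := Int.natAbs_pos.2 (mul_ne_zero ha hd)
  obtain ⟨g1, g2⟩ := h1 _ (Int.natAbs_even.2 hev) hD1 (gl_D a d A X h3 haX hdX)
  have hus := gl_us a d hd had hev (|(a : ℝ)| + |(d : ℝ)| + 1) (-1) (by
    have := abs_nonneg (a : ℝ)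
    have := abs_nonneg (d : ℝ)
    linarith) (by
    have := abs_nonneg (d : ℝ)
    linarith) (by
    have := abs_nonneg (a : ℝ)
    linarith) (by
    intro _
    have := abs_nonneg (a : ℝ)
    linarith)
  obtain ⟨g3, g4⟩ := h2 (Q (gl a d)) (us_perB hus) (us_adm hus)
  rw [gl_V a d had ⌊(X : ℝ) ^ (1 / ((2 : ℕ) : ℝ))⌋₊] at g3 g4
  refine ⟨?_, g3.trans g2⟩
  rw [div_mul_eq_mul_div, div_le_iff₀ hC]
  linarith

/-- **Primes `m` with `d m + a` almost prime: almost all are regular, uniformly in `a` and `d`.** -/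
theorem reg_gl (A δ₀ : ℝ) (hA : 0 < A) (hδ₀ : 0 < δ₀) (hδ₁ : δ₀ ≤ 1) :
    ∃ r0 : ℕ, 2 ≤ r0 ∧ ∀ r : ℕ, r0 ≤ r → ∃ κ : ℝ, 0 < κ ∧ ∀ ε : ℝ, 0 < ε → ∃ c : ℝ, 0 < c ∧
      ∀ δ : ℝ, 0 < δ → ∃ B : ℕ, ∀ᶠ X : ℕ in atTop,
      ∀ a d : ℤ, IsCoprime a d → Even (a * d) → a ≠ 0 → d ≠ 0 → |(a : ℝ)| ≤ (X : ℝ) ^ A → |(d : ℝ)| ≤ (X : ℝ) ^ A →
      ∀ u Y : ℕ, δ₀ * X ≤ Y → Y ≤ u → u + Y ≤ X →
        κ * (Y * (SG (a * d).natAbs / Real.log X ^ 2)) ≤
          cnt (PS 1 0 (gl a d) ⌊(X : ℝ) ^ (1 / (r : ℝ))⌋₊) u (u + Y) ∧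
        (cnt (Irregular (PS 1 0 (gl a d) ⌊(X : ℝ) ^ (1 / (r : ℝ))⌋₊) c
          (SG (a * d).natAbs / Real.log X ^ 2) δ B Y) u (u + Y) : ℝ) ≤
          ε * cnt (PS 1 0 (gl a d) ⌊(X : ℝ) ^ (1 / (r : ℝ))⌋₊) u (u + Y) := by
  obtain ⟨c₁, c₂, hc₁, hc₂, hord⟩ := VGX_order A
  obtain ⟨r0, hr0, h⟩ := reg_prime 1 2 1 squarefree_one A δ₀ hA hδ₀ hδ₁
  refine ⟨r0, hr0, ?_⟩
  intro r hr
  obtain ⟨κ, hκ, h2⟩ := h r hr
  refine ⟨κ * c₁, by positivity, ?_⟩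
  intro ε hε
  obtain ⟨c, hc, h3⟩ := h2 ε hε
  obtain ⟨c', hc', htr⟩ := transfer2 c c₁ c₂ hc hc₁ hc₂
  refine ⟨c', hc', fun δ hδ => ?_⟩
  obtain ⟨B, h4⟩ := h3 (δ / c₂) (by positivity)
  refine ⟨B, ?_⟩
  filter_upwards [h4, hord, eventually_ge_atTop 3] with X hX hoX hX3
  intro a d had hev ha hd haX hdX u Y hY hYu huY
  have hX2r : (3 : ℝ) ≤ X := by exact_mod_cast hX3
  have hX1 : (1 : ℝ) ≤ X := by linarith
  have hL : 0 < Real.log X := Real.log_pos (by linarith)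
  obtain ⟨o1, o2⟩ := hoX a d had hev ha hd haX hdX
  have hdens : 0 < SG (a * d).natAbs / Real.log X ^ 2 := div_pos (SG_pos _) (by positivity)
  have hus : US 2 1 ((X : ℝ) ^ A) 0 (gl a d) := gl_us a d hd had hev _ 0 (Real.one_le_rpow hX1 hA.le) haX hdX (by
    intro _
    have : (a : ℝ) ≠ 0 := by exact_mod_cast ha
    exact abs_pos.2 this)
  obtain ⟨m1, m2⟩ := hX (gl a d) 0 hus (Nat.coprime_one_left 0) (by
      intro p n hp h1
      exact absurd (Nat.dvd_one.1 h1) hp.one_lt.ne') ⟨0, fun n => by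
        unfold gl lfs
        rw [lf_eval]
        simp⟩ (by omega) u Y hY hYu huY
  constructor
  · refine le_trans ?_ m1
    calc κ * c₁ * (Y * (SG (a * d).natAbs / Real.log X ^ 2)) =
          κ * (Y * (c₁ * (SG (a * d).natAbs / Real.log X ^ 2))) := by ring
      _ ≤ κ * (Y * Vq (Q (gl a d)) X) := by gcongr
  · have ht := htr (PS 1 0 (gl a d) ⌊(X : ℝ) ^ (1 / (r : ℝ))⌋₊) (Vq (Q (gl a d)) X)
      (SG (a * d).natAbs / Real.log X ^ 2) δ hdens o1 o2 hδ B Y u (u + Y)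
    exact (Nat.cast_le.2 ht).trans m2

end Pool.Agent.Q236.GW
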