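import Pool.Agent.Q236.GW.PrimeSys

set_option autoImplicit false

/-!
# Actual primes among the almost prime points of a system: almost all of them are regular
-/

namespace Pool.Agent.Q236.GW

open Polynomial Finset Filter
open Pool.Agent.W123.RP Pool.Agent.H373R2.T7 Pool.Agent.W123.RU Pool.Agent.W123.RU.Poly
open Pool.Agent.TH464.PW Pool.Agent.TH464.PO Pool.Agent.Y879.AP Pool.Agent.Y879.GL Pool.Agent.Y879.PR

/-- the `n` for which `a n + b` is a prime and no prime `p ≤ y` divides a value of the system -/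
def PS {k : ℕ} (a b : ℕ) (f : Fin k → ℤ[X]) (y : ℕ) : Set ℕ :=
  {n | (a * n + b).Prime ∧ Sf (Q f) y n}

open Classical in
lemma cnt_PS {k : ℕ} (a b : ℕ) (f : Fin k → ℤ[X]) (y u Y : ℕ) :
    cnt (PS a b f y) u (u + Y) = (Om a b (Q f) y u Y).card := by
  unfold cnt Om PS
  apply congrArg Finset.card
  ext n
  simp only [Finset.mem_filter, Set.mem_setOf_eq]

/-- **Lower bound for the number of these primes, uniformly.** -/
theorem count_low (a k D : ℕ) (ha : Squarefree a) (E δ : ℝ) (hδ : 0 < δ) (hδ1 : δ ≤ 1) :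
    ∃ r0 : ℕ, 2 ≤ r0 ∧ ∀ r : ℕ, r0 ≤ r → ∃ κ : ℝ, 0 < κ ∧ ∀ᶠ X : ℕ in atTop,
      ∀ (f : Fin k → ℤ[X]) (b : ℕ), US k D ((X : ℝ) ^ E) 0 f → Nat.Coprime a b →
      (∀ p n : ℕ, p.Prime → p ∣ a → ¬ Q f p n) →
      (∃ i, ∀ n : ℕ, (f i).eval (n : ℤ) = a * n + b) → b ≤ X →
      ∀ u Y : ℕ, δ * X ≤ u → δ * X ≤ Y → u + Y ≤ X →
        κ * (Y * Vq (Q f) X) ≤ cnt (PS a b f ⌊(X : ℝ) ^ (1 / (r : ℝ))⌋₊) u (u + Y) := by
  obtain ⟨K, hK, hcount⟩ := prime_count a (k * D + 1) ha (1 / 2) δ (by norm_num) (by norm_num) hδ hδ1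
  refine ⟨max K 2, le_max_right _ _, ?_⟩
  intro r hr
  have hr2 : 2 ≤ r := (le_max_right _ _).trans hr
  have hKr : K ≤ r := (le_max_left _ _).trans hr
  have hrr : (2 : ℝ) ≤ r := by exact_mod_cast hr2
  have hrpos : (0 : ℝ) < r := by linarith
  obtain ⟨x0, hx0⟩ := hcount (k * D + 2)
  obtain ⟨C, hC, hVz⟩ := Vz_up r hr2
  obtain ⟨v, hv, hVlow⟩ := V_low_log (k * D + 1) r hr2
  obtain ⟨C2, hC2, hlev⟩ := Vq_level (k * D + 1) r hr2
  have hpowr : Tendsto (fun q : ℕ => (q : ℝ) ^ (1 / (r : ℝ))) atTop atTop :=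
    (tendsto_rpow_atTop (by positivity)).comp tendsto_natCast_atTop_atTop
  have hfl : Tendsto (fun q : ℕ => ⌊(q : ℝ) ^ (1 / (r : ℝ))⌋₊) atTop atTop :=
    tendsto_nat_floor_atTop.comp hpowr
  have hlog : Tendsto (fun X : ℕ => Real.log (X : ℝ)) atTop atTop :=
    Real.tendsto_log_atTop.comp tendsto_natCast_atTop_atTop
  refine ⟨1 / (4 * C), by positivity, ?_⟩
  filter_upwards [hVz, hVlow, hlev, hfl.eventually_ge_atTop (max x0 1), hlog.eventually_ge_atTop (4 / (δ * v)),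
    hlog.eventually_ge_atTop 1, eventually_ge_atTop 3] with X h1 h2 h3 h4 h5 h5' h6
  intro f b hf hab hnon hbase hbX u Y hu hY huY
  obtain ⟨y, hy⟩ : ∃ y, y = ⌊(X : ℝ) ^ (1 / (r : ℝ))⌋₊ := ⟨_, rfl⟩
  rw [← hy] at h1 h2 h3 h4 ⊢
  have hX3 : (3 : ℝ) ≤ X := by exact_mod_cast h6
  have hX0 : (0 : ℝ) < X := by linarith
  have hX1 : (1 : ℝ) ≤ X := by linarith
  have hL : 0 < Real.log X := by linarith
  have hper := us_perB hf
  have hadm := us_adm hf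
  have hyK : y ^ K ≤ X := by
    have e1 : ((y ^ K : ℕ) : ℝ) ≤ X := by
      push_cast
      calc (y : ℝ) ^ K ≤ ((X : ℝ) ^ (1 / (r : ℝ))) ^ K := by
            apply pow_le_pow_left₀ (Nat.cast_nonneg _)
            rw [hy]
            exact Nat.floor_le (by positivity)
        _ = (X : ℝ) ^ ((K : ℝ) / r) := by
            rw [← Real.rpow_natCast, ← Real.rpow_mul hX0.le]
            congr 1
            ring
        _ ≤ (X : ℝ) ^ (1 : ℝ) := by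
            apply Real.rpow_le_rpow_of_exponent_le hX1
            rw [div_le_one hrpos]
            exact_mod_cast hKr
        _ = X := Real.rpow_one _
    exact_mod_cast e1
  obtain ⟨i0, hi0⟩ := hbase
  have hB : Base a b (k * D + 1) (Q f) := ⟨hper, hnon, fun p n _ _ hn => ⟨i0, by
    rw [hi0 n]
    exact_mod_cast hn⟩⟩
  have hmain := hx0 X y ((le_max_left _ _).trans h4) hyK b hbX hab (Q f) hB u Y hu hY huY
  rw [← cnt_PS] at hmain
  obtain ⟨n, hn⟩ : ∃ n : ℝ, n = (cnt (PS a b f y) u (u + Y) : ℝ) := ⟨_, rfl⟩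
  rw [← hn] at hmain ⊢
  have hVy : 0 < Vq (Q f) y := Vq_pos _ hadm _
  have hVzy : 0 < Vz y := Pool.Agent.H373R2.T7.Vz_pos y
  have hVz1 : Vz y ≤ 1 := by
    unfold Vz
    apply Finset.prod_le_one
    · intro p hp
      have : (1 : ℝ) ≤ p := by exact_mod_cast (mem_pz.1 hp).2.one_lt.le
      rw [sub_nonneg, div_le_one (by linarith)]
      exact this
    · intro p _
      have : (0 : ℝ) ≤ 1 / (p : ℝ) := by positivity
      linarith
  have hlow := h2 (Q f) hper hadm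
  obtain ⟨W, hW⟩ : ∃ W, W = Vq (Q f) y / Vz y := ⟨_, rfl⟩
  rw [← hW] at hmain
  have hWV : Vq (Q f) y ≤ W := by
    rw [hW, le_div_iff₀ hVzy]
    exact mul_le_of_le_one_right hVy.le hVz1
  have hY0 : 0 < (Y : ℝ) := lt_of_lt_of_le (by positivity) hY
  -- the error term
  have herr : (X : ℝ) / Real.log X ^ (k * D + 2) ≤ 1 / 4 * (Y * W) := by
    have e1 : (X : ℝ) / Real.log X ^ (k * D + 2) ≤ δ * v / 4 * (X / Real.log X ^ (k * D + 1)) := by
      rw [div_le_iff₀ (by positivity), pow_succ _ (k * D + 1)]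
      have e2 : δ * v / 4 * ((X : ℝ) / Real.log X ^ (k * D + 1)) * (Real.log X ^ (k * D + 1) * Real.log X) =
          δ * v / 4 * Real.log X * X := by
        field_simp
      rw [e2]
      have e3 : 1 ≤ δ * v / 4 * Real.log X := by
        rw [div_le_iff₀ (by positivity)] at h5
        linarith
      nlinarith
    refine e1.trans ?_
    have e4 : v / Real.log X ^ (k * D + 1) ≤ W := hlow.trans hWV
    have e5 : δ * X * (v / Real.log X ^ (k * D + 1)) ≤ Y * W :=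
      mul_le_mul hY e4 (by positivity) hY0.le
    have e6 : δ * v / 4 * ((X : ℝ) / Real.log X ^ (k * D + 1)) =
        1 / 4 * (δ * X * (v / Real.log X ^ (k * D + 1))) := by ring
    rw [e6]
    linarith
  have hlown : 1 / 4 * (Y * W) ≤ n * Real.log X := by
    obtain ⟨g1, _⟩ := abs_le.1 hmain
    linarith
  have hWlow : Vq (Q f) y * (Real.log X / C) ≤ W := by
    rw [hW, le_div_iff₀ hVzy]
    have e7 : Real.log X / C * Vz y ≤ 1 := by
      have := h1.2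
      rw [le_div_iff₀ hL] at this
      rw [div_mul_eq_mul_div, div_le_one hC]
      linarith
    calc Vq (Q f) y * (Real.log X / C) * Vz y = Vq (Q f) y * (Real.log X / C * Vz y) := by ring
      _ ≤ Vq (Q f) y * 1 := mul_le_mul_of_nonneg_left e7 hVy.le
      _ = Vq (Q f) y := mul_one _
  have e8 := (h3 (Q f) hper hadm).1
  have e9 : 1 / (4 * C) * (Y * Vq (Q f) X) * Real.log X ≤ n * Real.log X := by
    refine le_trans ?_ hlown
    calc 1 / (4 * C) * (Y * Vq (Q f) X) * Real.log X ≤ 1 / (4 * C) * (Y * Vq (Q f) y) * Real.log X := by gcongr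
      _ = 1 / 4 * (Y * (Vq (Q f) y * (Real.log X / C))) := by
          field_simp
      _ ≤ 1 / 4 * (Y * W) := by gcongr
  exact le_of_mul_le_mul_right e9 hL

/-- **Almost all primes among the almost prime points are regular points of the set of these primes.** -/
theorem reg_prime (a k D : ℕ) (ha : Squarefree a) (E δ₀ : ℝ) (hE : 0 < E) (hδ₀ : 0 < δ₀) (hδ₁ : δ₀ ≤ 1) :
    ∃ r0 : ℕ, 2 ≤ r0 ∧ ∀ r : ℕ, r0 ≤ r → ∃ κ : ℝ, 0 < κ ∧ ∀ ε : ℝ, 0 < ε → ∃ c : ℝ, 0 < c ∧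
      ∀ δ : ℝ, 0 < δ → ∃ B : ℕ, ∀ᶠ X : ℕ in atTop,
      ∀ (f : Fin k → ℤ[X]) (b : ℕ), US k D ((X : ℝ) ^ E) 0 f → Nat.Coprime a b →
      (∀ p n : ℕ, p.Prime → p ∣ a → ¬ Q f p n) →
      (∃ i, ∀ n : ℕ, (f i).eval (n : ℤ) = a * n + b) → b ≤ X →
      ∀ u Y : ℕ, δ₀ * X ≤ Y → Y ≤ u → u + Y ≤ X →
        κ * (Y * Vq (Q f) X) ≤ cnt (PS a b f ⌊(X : ℝ) ^ (1 / (r : ℝ))⌋₊) u (u + Y) ∧
        (cnt (Irregular (PS a b f ⌊(X : ℝ) ^ (1 / (r : ℝ))⌋₊) c (Vq (Q f) X) δ B Y) u (u + Y) : ℝ) ≤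
          ε * cnt (PS a b f ⌊(X : ℝ) ^ (1 / (r : ℝ))⌋₊) u (u + Y) := by
  obtain ⟨r1, hr1, h1⟩ := count_low a k D ha E δ₀ hδ₀ hδ₁
  obtain ⟨r2, hr2, h2⟩ := her_base a k D (Nat.pos_of_ne_zero ha.ne_zero) E (1 / 2) hE (by norm_num)
  refine ⟨max r1 r2, hr1.trans (le_max_left _ _), ?_⟩
  intro r hr
  obtain ⟨κ, hκ, h3⟩ := h1 r ((le_max_left _ _).trans hr)
  refine ⟨κ, hκ, ?_⟩
  intro ε hε
  obtain ⟨c, hc, h4⟩ := h2 r ((le_max_right _ _).trans hr) (ε * κ) (by positivity)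
  refine ⟨c, hc, fun δ hδ => ?_⟩
  obtain ⟨B, h5⟩ := h4 δ hδ
  refine ⟨B, ?_⟩
  have hpow : Tendsto (fun q : ℕ => (q : ℝ) ^ (1 / 2 : ℝ)) atTop atTop :=
    (tendsto_rpow_atTop (by norm_num)).comp tendsto_natCast_atTop_atTop
  filter_upwards [h3, h5, hpow.eventually_ge_atTop (1 / δ₀), eventually_ge_atTop 1] with X hX3 hX5 hX6 hX7
  intro f b hf hab hnon hbase hbX u Y hY hYu huY
  have hX0 : (0 : ℝ) < X := by exact_mod_cast hX7
  have hYr : (Y : ℝ) ≤ u := by exact_mod_cast hYu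
  have hlow := hX3 f b hf hab hnon hbase hbX u Y (hY.trans hYr) hY huY
  refine ⟨hlow, ?_⟩
  have hXY : (X : ℝ) ^ (1 / 2 : ℝ) ≤ Y := by
    refine le_trans ?_ hY
    have e1 : (X : ℝ) ^ (1 / 2 : ℝ) * (X : ℝ) ^ (1 / 2 : ℝ) = X := by
      rw [← Real.rpow_add hX0]
      norm_num
    have e2 : 1 ≤ δ₀ * (X : ℝ) ^ (1 / 2 : ℝ) := by
      rw [div_le_iff₀ hδ₀] at hX6
      linarith
    have e3 : (0 : ℝ) < (X : ℝ) ^ (1 / 2 : ℝ) := Real.rpow_pos_of_pos hX0 _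
    calc (X : ℝ) ^ (1 / 2 : ℝ) = 1 * (X : ℝ) ^ (1 / 2 : ℝ) := (one_mul _).symm
      _ ≤ δ₀ * (X : ℝ) ^ (1 / 2 : ℝ) * (X : ℝ) ^ (1 / 2 : ℝ) := mul_le_mul_of_nonneg_right e2 e3.le
      _ = δ₀ * X := by rw [mul_assoc, e1]
  have h6 := hX5 f b hf hbase u Y hXY (by omega) hYu (PS a b f ⌊(X : ℝ) ^ (1 / (r : ℝ))⌋₊)
    (fun m hm => hm.2)
  refine h6.trans ?_
  calc ε * κ * (Y * Vq (Q f) X) = ε * (κ * (Y * Vq (Q f) X)) := by ring
    _ ≤ _ := mul_le_mul_of_nonneg_left hlow hε.le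

end Pool.Agent.Q236.GW
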