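import Pool.Agent.Q236.GW.Gold

set_option autoImplicit false

/-!
# The sieve density of the pairs `m`, `n - m` and the singular series
-/

namespace Pool.Agent.Q236.GW

open Finset Filter
open Pool.Agent.W123.RP Pool.Agent.H373R2.T7 Pool.Agent.W123.RU Pool.Agent.TH464.PO Pool.Agent.TH464.PW
open Pool.Agent.Y879.AP Pool.Agent.Y879.GL

/-- the partial products of the twin prime constant -/
noncomputable def Cz (z : ℕ) : ℝ := ∏ p ∈ (Icc 3 z).filter Nat.Prime, (1 - 1 / ((p : ℝ) - 1) ^ 2)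

/-- the twin prime constant -/
noncomputable def C2 : ℝ := ⨅ z : ℕ, Cz z

/-- the singular series -/
noncomputable def SG (n : ℕ) : ℝ :=
  2 * C2 * ∏ p ∈ n.primeFactors.filter (fun p => 2 < p), ((p : ℝ) - 1) / ((p : ℝ) - 2)

lemma Cz_eq (z : ℕ) : Cz z = ∏ p ∈ pz z, bb p := by
  unfold Cz pz
  rw [prod_filter, prod_filter]
  have h : ∏ p ∈ Icc 3 z, (if p.Prime then (1 - 1 / ((p : ℝ) - 1) ^ 2) else 1) =
      ∏ p ∈ Icc 3 z, (if p.Prime then bb p else 1) := by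
    apply prod_congr rfl
    intro p hp
    rw [mem_Icc] at hp
    unfold bb
    rw [if_neg (by omega : ¬ p ≤ 2)]
  rw [h]
  apply prod_subset
  · intro p hp
    rw [mem_Icc] at hp ⊢
    omega
  · intro p hp hp3
    rw [mem_Icc] at hp hp3
    unfold bb
    rw [if_pos (by omega : p ≤ 2)]
    simp

lemma Cz_low (z : ℕ) : 1 / 2 ≤ Cz z := by
  rw [Cz_eq]
  exact prod_bb z

lemma Cz_anti : Antitone Cz := by
  intro a b hab
  rw [Cz_eq, Cz_eq]
  unfold pz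
  rw [prod_filter, prod_filter]
  have hsub : Icc 1 a ⊆ Icc 1 b := Finset.Icc_subset_Icc_right hab
  rw [← prod_sdiff hsub]
  have h1 : ∏ p ∈ Icc 1 b \ Icc 1 a, (if p.Prime then bb p else 1) ≤ 1 := by
    apply Finset.prod_le_one
    · intro i _
      split_ifs
      · exact (bb_bounds i).1
      · exact zero_le_one
    · intro i _
      split_ifs
      · exact (bb_bounds i).2
      · exact le_rfl
  have h2 : 0 ≤ ∏ p ∈ Icc 1 a, (if p.Prime then bb p else 1) := by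
    apply Finset.prod_nonneg
    intro i _
    split_ifs
    · exact (bb_bounds i).1
    · exact zero_le_one
  nlinarith

lemma Cz_tendsto : Tendsto Cz atTop (nhds C2) :=
  tendsto_atTop_ciInf Cz_anti ⟨1 / 2, by rintro _ ⟨z, rfl⟩; exact Cz_low z⟩

lemma C2_low : 1 / 2 ≤ C2 := le_ciInf Cz_low

lemma term_eq (n p : ℕ) (hn : Even n) (hp : p.Prime) :
    (1 - (if p ∣ n then (1 : ℝ) else 2) / p) =
      (1 - 1 / (p : ℝ)) * (1 - 1 / (p : ℝ)) * bb p *
        (if p ∣ n ∧ 2 < p then ((p : ℝ) - 1) / ((p : ℝ) - 2) else 1) * (if p = 2 then 2 else 1) := by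
  by_cases h2 : p = 2
  · subst h2
    rw [if_pos hn.two_dvd, if_neg (by omega), if_pos rfl]
    unfold bb
    rw [if_pos le_rfl]
    norm_num
  · have hp3 : 3 ≤ p := by
      have := hp.two_le
      omega
    have hp3' : (3 : ℝ) ≤ p := by exact_mod_cast hp3
    have e0 : (p : ℝ) ≠ 0 := by linarith
    have e1 : (p : ℝ) - 1 ≠ 0 := by linarith
    have e2 : (p : ℝ) - 2 ≠ 0 := by linarith
    unfold bb
    rw [if_neg h2, if_neg (by omega : ¬ p ≤ 2)]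
    by_cases h : p ∣ n
    · rw [if_pos h, if_pos ⟨h, by omega⟩]
      field_simp
      ring
    · rw [if_neg h, if_neg (fun h3 => h h3.1)]
      field_simp
      ring

lemma VG_formula (n y : ℕ) (hn : Even n) (hn0 : n ≠ 0) (hy : 2 ≤ y) :
    VG n y = 2 * Vz y ^ 2 * Cz y *
      ∏ p ∈ n.primeFactors.filter (fun p => 2 < p ∧ p ≤ y), ((p : ℝ) - 1) / ((p : ℝ) - 2) := by
  have h1 : VG n y = ∏ p ∈ pz y, ((1 - 1 / (p : ℝ)) * (1 - 1 / (p : ℝ)) * bb p *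
        (if p ∣ n ∧ 2 < p then ((p : ℝ) - 1) / ((p : ℝ) - 2) else 1) * (if p = 2 then 2 else 1)) := by
    rw [VG_eq]
    exact prod_congr rfl (fun p hp => term_eq n p hn (mem_pz.1 hp).2)
  have h2 : ∏ p ∈ pz y, (if p = 2 then (2 : ℝ) else 1) = 2 := by
    rw [prod_ite_eq' (pz y) 2 (fun _ => (2 : ℝ)), if_pos (mem_pz.2 ⟨hy, Nat.prime_two⟩)]
  have h3 : ∏ p ∈ pz y, (if p ∣ n ∧ 2 < p then ((p : ℝ) - 1) / ((p : ℝ) - 2) else 1) =
      ∏ p ∈ n.primeFactors.filter (fun p => 2 < p ∧ p ≤ y), ((p : ℝ) - 1) / ((p : ℝ) - 2) := by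
    rw [← prod_filter]
    apply prod_congr _ (fun _ _ => rfl)
    ext p
    rw [Finset.mem_filter, Finset.mem_filter, mem_pz, Nat.mem_primeFactors]
    constructor
    · rintro ⟨⟨h3, h4⟩, h5, h6⟩
      exact ⟨⟨h4, h5, hn0⟩, h6, h3⟩
    · rintro ⟨⟨h3, h4, _⟩, h5, h6⟩
      exact ⟨⟨h6, h3⟩, h4, h5⟩
  rw [h1, prod_mul_distrib, prod_mul_distrib, prod_mul_distrib, prod_mul_distrib, h2, h3, ← Cz_eq]
  unfold Vz
  ring

lemma SG_formula (n y : ℕ) (hy : 2 ≤ y) :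
    SG n = 2 * C2 * (∏ p ∈ n.primeFactors.filter (fun p => 2 < p ∧ p ≤ y), ((p : ℝ) - 1) / ((p : ℝ) - 2)) *
      ∏ p ∈ n.primeFactors.filter (fun p => y < p), ((p : ℝ) - 1) / ((p : ℝ) - 2) := by
  unfold SG
  rw [mul_assoc (2 * C2)]
  congr 1
  rw [← prod_filter_mul_prod_filter_not (n.primeFactors.filter (fun p => 2 < p)) (fun p => p ≤ y)]
  congr 1
  · apply prod_congr _ (fun _ _ => rfl)
    ext p
    simp only [Finset.mem_filter]
    tauto
  · apply prod_congr _ (fun _ _ => rfl)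
    ext p
    simp only [Finset.mem_filter]
    constructor
    · rintro ⟨⟨h1, h2⟩, h3⟩
      exact ⟨h1, by omega⟩
    · rintro ⟨h1, h2⟩
      exact ⟨⟨h1, by omega⟩, by omega⟩

lemma large_bound (n y : ℕ) (hy : 2 ≤ y) :
    (∏ p ∈ n.primeFactors.filter (fun p => y < p), (1 - 1 / (p : ℝ))) ^ 2 *
      (∏ p ∈ n.primeFactors.filter (fun p => y < p), ((p : ℝ) - 1) / ((p : ℝ) - 2)) ≤ 1 ∧
    1 ≤ ∏ p ∈ n.primeFactors.filter (fun p => y < p), ((p : ℝ) - 1) / ((p : ℝ) - 2) := by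
  have hbig : ∀ p ∈ n.primeFactors.filter (fun p => y < p), (3 : ℝ) ≤ p := by
    intro p hp
    have := (Finset.mem_filter.1 hp).2
    exact_mod_cast (by omega : 3 ≤ p)
  constructor
  · rw [← prod_pow, ← prod_mul_distrib]
    apply Finset.prod_le_one
    · intro p hp
      have h3 := hbig p hp
      have : 0 ≤ ((p : ℝ) - 1) / ((p : ℝ) - 2) := div_nonneg (by linarith) (by linarith)
      positivity
    · intro p hp
      have h3 := hbig p hp
      have e : (1 - 1 / (p : ℝ)) ^ 2 * (((p : ℝ) - 1) / ((p : ℝ) - 2)) =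
          ((p : ℝ) - 1) ^ 3 / (p ^ 2 * ((p : ℝ) - 2)) := by
        have e0 : (p : ℝ) ≠ 0 := by linarith
        have e2 : (p : ℝ) - 2 ≠ 0 := by linarith
        field_simp
      have hpos : 0 < (p : ℝ) ^ 2 * ((p : ℝ) - 2) := by
        apply mul_pos (by positivity) (by linarith)
      rw [e, div_le_one hpos]
      nlinarith
  · have h : ∏ p ∈ n.primeFactors.filter (fun p => y < p), (1 : ℝ) ≤
        ∏ p ∈ n.primeFactors.filter (fun p => y < p), ((p : ℝ) - 1) / ((p : ℝ) - 2) := by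
      apply Finset.prod_le_prod (fun _ _ => zero_le_one)
      intro p hp
      have h3 := hbig p hp
      rw [one_le_div (by linarith)]
      linarith
    simpa using h

/-- **The density is the singular series times the density of the sieve.** -/
theorem VG_asym (r : ℕ) (hr : 2 ≤ r) (δ : ℝ) (hδ : 0 < δ) : ∀ᶠ n : ℕ in atTop, Even n →
    |VG n ⌊(n : ℝ) ^ (1 / (r : ℝ))⌋₊ * Real.log n ^ 2 -
      (r * Real.exp (-Real.eulerMascheroniConstant)) ^ 2 * SG n| ≤ δ * SG n := by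
  obtain ⟨κ, hκ⟩ : ∃ κ : ℝ, κ = r * Real.exp (-Real.eulerMascheroniConstant) := ⟨_, rfl⟩
  have hr0 : (0 : ℝ) < r := by exact_mod_cast (by omega : 0 < r)
  have hκ0 : 0 < κ := by rw [hκ]; positivity
  have hz := Vz_asym r hr
  rw [← hκ] at hz ⊢
  have hpowr : Tendsto (fun q : ℕ => (q : ℝ) ^ (1 / (r : ℝ))) atTop atTop :=
    (tendsto_rpow_atTop (by positivity)).comp tendsto_natCast_atTop_atTop
  have hfl : Tendsto (fun q : ℕ => ⌊(q : ℝ) ^ (1 / (r : ℝ))⌋₊) atTop atTop :=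
    tendsto_nat_floor_atTop.comp hpowr
  have hC := Cz_tendsto.comp hfl
  have hC2 := C2_low
  have hC20 : C2 ≠ 0 := by linarith
  -- the main ratio
  have hratio : Tendsto (fun n : ℕ => (Vz ⌊(n : ℝ) ^ (1 / (r : ℝ))⌋₊ * Real.log n) ^ 2 *
      (Cz ⌊(n : ℝ) ^ (1 / (r : ℝ))⌋₊ / C2)) atTop (nhds (κ ^ 2)) := by
    have h1 := (hz.pow 2).mul (hC.div_const C2)
    rw [div_self hC20, mul_one] at h1
    exact h1
  obtain ⟨δ', hδ'⟩ : ∃ δ' : ℝ, δ' = min (1 / 2) (δ / (8 * (κ ^ 2 + 1))) := ⟨_, rfl⟩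
  have hδ'0 : 0 < δ' := by rw [hδ']; exact lt_min (by norm_num) (by positivity)
  have hδ'1 : δ' ≤ 1 / 2 := by rw [hδ']; exact min_le_left _ _
  have hδ'2 : δ' * (8 * (κ ^ 2 + 1)) ≤ δ := by
    have : δ' ≤ δ / (8 * (κ ^ 2 + 1)) := by rw [hδ']; exact min_le_right _ _
    rwa [le_div_iff₀ (by positivity)] at this
  have hm0 : 0 < min (δ / 2) 1 := lt_min (by positivity) one_pos
  filter_upwards [hratio.eventually (Metric.ball_mem_nhds (κ ^ 2) hm0),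
    large_part r hr δ' hδ'0, hfl.eventually_ge_atTop 2, eventually_ge_atTop 3] with n h1 h2 h3 hn3 hn
  obtain ⟨y, hy⟩ : ∃ y, y = ⌊(n : ℝ) ^ (1 / (r : ℝ))⌋₊ := ⟨_, rfl⟩
  rw [← hy] at h1 h2 h3 ⊢
  rw [VG_formula n y hn (by omega) h3, SG_formula n y h3]
  obtain ⟨hL1, hL2⟩ := large_bound n y h3
  obtain ⟨P, hP⟩ : ∃ P : ℝ, P = ∏ p ∈ n.primeFactors.filter (fun p => y < p), (1 - 1 / (p : ℝ)) := ⟨_, rfl⟩
  obtain ⟨M, hM⟩ : ∃ M : ℝ, M = ∏ p ∈ n.primeFactors.filter (fun p => 2 < p ∧ p ≤ y),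
    ((p : ℝ) - 1) / ((p : ℝ) - 2) := ⟨_, rfl⟩
  obtain ⟨L, hL⟩ : ∃ L : ℝ, L = ∏ p ∈ n.primeFactors.filter (fun p => y < p),
    ((p : ℝ) - 1) / ((p : ℝ) - 2) := ⟨_, rfl⟩
  rw [← hP, ← hL] at hL1
  rw [← hL] at hL2
  rw [← hP] at h2
  rw [← hM, ← hL]
  have hM0 : 0 ≤ M := by
    rw [hM]
    apply prod_nonneg
    intro p hp
    have := (Finset.mem_filter.1 hp).2.1
    have h3 : (3 : ℝ) ≤ p := by exact_mod_cast (by omega : 3 ≤ p)
    exact div_nonneg (by linarith) (by linarith)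
  obtain ⟨a, ha⟩ : ∃ a : ℝ, a = (Vz y * Real.log n) ^ 2 * (Cz y / C2) := ⟨_, rfl⟩
  rw [← ha, Real.dist_eq] at h1
  have h1' : |a - κ ^ 2| ≤ δ / 2 := h1.le.trans (min_le_left _ _)
  have hL3 : L - 1 ≤ 2 * δ' * L := by
    have h4 : (1 - δ') ^ 2 ≤ P ^ 2 := pow_le_pow_left₀ (by linarith) h2.1 2
    have h5 : (1 - δ') ^ 2 * L ≤ 1 := (mul_le_mul_of_nonneg_right h4 (by linarith)).trans hL1
    nlinarith [sq_nonneg δ']
  have e1 : 2 * Vz y ^ 2 * Cz y * M * Real.log n ^ 2 = 2 * C2 * M * a := by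
    rw [ha]
    field_simp
  have e2 : 2 * C2 * M * a - κ ^ 2 * (2 * C2 * M * L) = 2 * C2 * M * ((a - κ ^ 2) - κ ^ 2 * (L - 1)) := by
    ring
  have hCM : 0 ≤ 2 * C2 * M := by
    have : 0 ≤ C2 := by linarith
    positivity
  rw [e1, e2, abs_mul, abs_of_nonneg hCM]
  have h6 : |(a - κ ^ 2) - κ ^ 2 * (L - 1)| ≤ δ * L := by
    have h7 : |(a - κ ^ 2) - κ ^ 2 * (L - 1)| ≤ |a - κ ^ 2| + |κ ^ 2 * (L - 1)| := abs_sub _ _
    have h8 : |κ ^ 2 * (L - 1)| = κ ^ 2 * (L - 1) := abs_of_nonneg (by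
      apply mul_nonneg (by positivity) (by linarith))
    have h9 : κ ^ 2 * (L - 1) ≤ κ ^ 2 * (2 * δ' * L) := mul_le_mul_of_nonneg_left hL3 (by positivity)
    have h10 : κ ^ 2 * (2 * δ' * L) ≤ δ / 4 * L := by
      have h11 : κ ^ 2 * δ' * 8 ≤ δ := by nlinarith
      nlinarith
    have h12 : δ / 2 ≤ δ / 2 * L := by nlinarith
    linarith [mul_nonneg hδ.le (by linarith : (0 : ℝ) ≤ L)]
  calc 2 * C2 * M * |(a - κ ^ 2) - κ ^ 2 * (L - 1)| ≤ 2 * C2 * M * (δ * L) :=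
        mul_le_mul_of_nonneg_left h6 hCM
    _ = δ * (2 * C2 * M * L) := by ring

end Pool.Agent.Q236.GW
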