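import Pool.Agent.Q236.GW.Reg

set_option autoImplicit false

/-!
# The quotient of the densities
-/

namespace Pool.Agent.Q236.GW

open Finset Filter
open Pool.Agent.W123.RP Pool.Agent.H373R2.T7 Pool.Agent.W123.RU Pool.Agent.TH464.PO Pool.Agent.TH464.PW
open Pool.Agent.Y879.AP Pool.Agent.Y879.GL

/-- **The density among the primes is the singular series, uniformly.** -/
theorem WG_asymU (A : ℝ) (r : ℕ) (hr : 2 ≤ r) (δ : ℝ) (hδ : 0 < δ) : ∀ᶠ X : ℕ in atTop,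
    ∀ D : ℕ, Even D → 1 ≤ D → (D : ℝ) ≤ (X : ℝ) ^ A →
    |VG D ⌊(X : ℝ) ^ (1 / (r : ℝ))⌋₊ / Vz ⌊(X : ℝ) ^ (1 / (r : ℝ))⌋₊ * Real.log X -
      r * Real.exp (-Real.eulerMascheroniConstant) * SG D| ≤ δ * SG D := by
  obtain ⟨κ, hκ⟩ : ∃ κ : ℝ, κ = r * Real.exp (-Real.eulerMascheroniConstant) := ⟨_, rfl⟩
  have hr0 : (0 : ℝ) < r := by exact_mod_cast (by omega : 0 < r)
  have hκ0 : 0 < κ := by rw [hκ]; positivity
  have hz := Vz_asym r hr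
  rw [← hκ] at hz ⊢
  obtain ⟨δ₁, hδ₁⟩ : ∃ δ₁ : ℝ, δ₁ = min (κ / 2) (δ / 8) := ⟨_, rfl⟩
  have hδ₁0 : 0 < δ₁ := by rw [hδ₁]; exact lt_min (by positivity) (by positivity)
  have hδ₁1 : δ₁ ≤ κ / 2 := by rw [hδ₁]; exact min_le_left _ _
  have hδ₁2 : δ₁ ≤ δ / 8 := by rw [hδ₁]; exact min_le_right _ _
  have hδ₂0 : 0 < δ * κ / 8 := by positivity
  filter_upwards [hz.eventually (Metric.ball_mem_nhds κ hδ₁0), VG_asymU A r hr (δ * κ / 8) hδ₂0,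
    eventually_ge_atTop 3] with X h1 h2 h3
  intro D hD hD1 hDX
  have h4 := h2 D hD hD1 hDX
  rw [← hκ] at h4
  rw [Real.dist_eq] at h1
  obtain ⟨z, hz'⟩ : ∃ z : ℝ, z = Vz ⌊(X : ℝ) ^ (1 / (r : ℝ))⌋₊ * Real.log X := ⟨_, rfl⟩
  rw [← hz'] at h1
  have hz1 : |z - κ| ≤ δ₁ := h1.le
  obtain ⟨g1, g2⟩ := abs_le.1 hz1
  have hzpos : κ / 2 ≤ z := by linarith
  have hz0 : 0 < z := by linarith
  have hL : 0 < Real.log X := Real.log_pos (by exact_mod_cast (by omega : 1 < X))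
  have hVz : 0 < Vz ⌊(X : ℝ) ^ (1 / (r : ℝ))⌋₊ := Vz_pos _
  have hS := SG_pos D
  have e1 : VG D ⌊(X : ℝ) ^ (1 / (r : ℝ))⌋₊ / Vz ⌊(X : ℝ) ^ (1 / (r : ℝ))⌋₊ * Real.log X =
      VG D ⌊(X : ℝ) ^ (1 / (r : ℝ))⌋₊ * Real.log X ^ 2 / z := by
    rw [hz']
    field_simp
  rw [e1]
  obtain ⟨v, hv⟩ : ∃ v : ℝ, v = VG D ⌊(X : ℝ) ^ (1 / (r : ℝ))⌋₊ * Real.log X ^ 2 := ⟨_, rfl⟩
  rw [← hv] at h4 ⊢
  have e2 : v / z - κ * SG D = (v - κ ^ 2 * SG D - κ * SG D * (z - κ)) / z := by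
    field_simp
    ring
  rw [e2, abs_div, abs_of_pos hz0, div_le_iff₀ hz0]
  have h5 : |v - κ ^ 2 * SG D - κ * SG D * (z - κ)| ≤ δ * κ / 8 * SG D + κ * SG D * δ₁ := by
    refine (abs_sub _ _).trans ?_
    apply add_le_add h4
    rw [abs_mul, abs_of_pos (by positivity : 0 < κ * SG D)]
    exact mul_le_mul_of_nonneg_left hz1 (by positivity)
  refine h5.trans ?_
  have h6 : κ * SG D * δ₁ ≤ κ * SG D * (δ / 8) := mul_le_mul_of_nonneg_left hδ₁2 (by positivity)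
  have h7 : δ * SG D * (κ / 2) ≤ δ * SG D * z := mul_le_mul_of_nonneg_left hzpos (by positivity)
  nlinarith [mul_pos (mul_pos hδ hκ0) hS]

end Pool.Agent.Q236.GW
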